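import Pool.Agent.X153.FL.Poly

set_option autoImplicit false

namespace Pool.Agent.X153.FL

/-- `|τ| ≤ H` -/
def sabsH (H : ℤ) : List ℤ → ℤ
  | [] => 0
  | a :: as => |a| + H * sabsH H as

theorem sabsH_nonneg (H : ℤ) (hH : 0 ≤ H) (l : List ℤ) : 0 ≤ sabsH H l := by
  induction l with
  | nil => simp [sabsH]
  | cons a as ih => simp only [sabsH]; positivity

theorem abs_ev_leH (H : ℤ) (hH : 0 ≤ H) (l : List ℤ) (τ : ℝ) (h : |τ| ≤ H) :
    |ev l τ| ≤ sabsH H l := by
  induction l with
  | nil => simp [ev, sabsH]
  | cons a as ih =>
    simp only [ev, sabsH]
    push_cast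
    have hH' : (0 : ℝ) ≤ H := by exact_mod_cast hH
    calc |(a : ℝ) + τ * ev as τ| ≤ |(a : ℝ)| + |τ * ev as τ| := abs_add_le _ _
      _ = |(a : ℝ)| + |τ| * |ev as τ| := by rw [abs_mul]
      _ ≤ |(a : ℝ)| + H * sabsH H as := by gcongr

/-- upper bound for `ev l τ`, `|τ| ≤ H` -/
def ubH (H : ℤ) : List ℤ → ℤ
  | [] => 0
  | a :: as => a + H * sabsH H as

theorem ev_le_ubH (H : ℤ) (hH : 0 ≤ H) (l : List ℤ) (τ : ℝ) (h : |τ| ≤ H) :
    ev l τ ≤ ubH H l := by
  cases l with
  | nil => simp [ev, ubH]
  | cons a as =>
    simp only [ev, ubH]
    push_cast
    have hH' : (0 : ℝ) ≤ H := by exact_mod_cast hH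
    have h1 := abs_ev_leH H hH as τ h
    have h2 : τ * ev as τ ≤ H * sabsH H as := by
      calc τ * ev as τ ≤ |τ * ev as τ| := le_abs_self _
        _ = |τ| * |ev as τ| := abs_mul _ _
        _ ≤ H * sabsH H as := by gcongr
    linarith

/-- `l ≤ thr` on the cell with centre `C / Q` and half-width `H / Q` -/
def cellH (l : List ℤ) (thr C Q H : ℤ) : Bool :=
  decide (ubH H (sh C Q l).1 ≤ thr * (sh C Q l).2)

theorem cellH_sound (l : List ℤ) (thr C Q H : ℤ) (hQ : 0 < Q) (hH : 0 ≤ H)
    (h : cellH l thr C Q H = true)
    (u : ℝ) (hu : |u - C / Q| ≤ H / Q) : ev l u ≤ thr := by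
  have hQ' : (0 : ℝ) < Q := by exact_mod_cast hQ
  have h1 : ubH H (sh C Q l).1 ≤ thr * (sh C Q l).2 := by simpa [cellH] using h
  have hτ : |u * Q - C| ≤ H := by
    have : u * Q - C = (u - C / Q) * Q := by field_simp
    rw [this, abs_mul, abs_of_pos hQ']
    calc |u - C / Q| * Q ≤ (H / Q) * Q := by gcongr
      _ = H := by field_simp
  have h2 := ev_le_ubH H hH (sh C Q l).1 (u * Q - C) hτ
  rw [ev_sh C Q hQ.ne' l] at h2
  have h3 : ((C : ℝ) + (u * Q - C)) / Q = u := by field_simp; ring
  rw [h3] at h2
  have h4 : (0 : ℝ) < ((sh C Q l).2 : ℝ) := by
    rw [sh_snd]; push_cast; positivity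
  have h5 : (ubH H (sh C Q l).1 : ℝ) ≤ thr * (sh C Q l).2 := by exact_mod_cast h1
  have h6 : ((sh C Q l).2 : ℝ) * ev l u ≤ ((sh C Q l).2 : ℝ) * thr := by linarith
  exact le_of_mul_le_mul_left h6 h4

/-- the auxiliary polynomial, scaled by `2 ^ 50` -/
def GLs : List ℤ :=
    [-4616627581611696, 11623458469159436, -11864011356934140, -99420290049718320,
    855962055948398288, -537837386439990080, -19699485679388677120, 11329972523806182016,
    308217092809475799296, -52379132950325555712, -2442711871946781455872,
    59875725428170642432, 10809824226098523695104, 212161549133000441856,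
    -29115612164208435871744, -841145068188265398272, 49833520507028572078080,
    1309089008375433003008, -54607854793035435737088, -1096478542430063034368,
    37169508142755163406336, 492237144527653044224, -14328159013635207725056,
    -94048847621032771584, 2392136051138517532672]

/-- `-10 u + 84 u ^ 3 - 96 u ^ 5` -/
def pL : List ℤ := [0, -10, 0, 84, 0, -96]

/-- the modified potential, scaled by `2 ^ 50` -/
def PL : List ℤ :=
    [3385210761495880, 364459400733196, 502146541626729756, -4844697874937904,
    -61370843149138370304, -645923777496881984, 4034570677507030724480, 11329972523806182016,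
    -160268473900353799086080, -52379132950325555712, 4119773475605013172183552,
    59875725428170642432, -72026611483604536750258176, 212161549133000441856,
    891878804160232937576693760, -841145068188265398272, -8098949822807369580884459520,
    1309089008375433003008, 55513591160927142037381709824, -1096478542430063034368,
    -293899064931389915605269217280, 492237144527653044224, 1223218412715640901968037150720,
    -94048847621032771584, -4055163523125885280913536843776, 0,
    10806537448245906252231044235264, 0, -23280148707413777865695442239488, 0,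
    40636735546355990793201412734976, 0, -57418796023681051262698303520768, 0,
    65370130052178472783776837533696, 0, -59428009885122777922946390294528, 0,
    42511318501726250963490473771008, 0, -23385788629115394122724285612032, 0,
    9541550846525788241198420328448, 0, -2718179585827555288185980321792, 0,
    482389537691600031261074128896, 0, -40133383231337954565425201152]

/-- first derivative of `PL` -/
def PL1 : List ℤ :=
    [364459400733196, 1004293083253459512, -14534093624813712, -245483372596553481216,
    -3229618887484409920, 24207424065042184346880, 79309807666643274112,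
    -1282147791202830392688640, -471412196552930001408, 41197734756050131721835520,
    658632979709877066752, -864319337803254441003098112, 2758100138729005744128,
    12486303258243261126073712640, -12617176022823980974080, -129583197164917913294151352320,
    22254513142382361051136, 999244640896688556672870776832, -20833092306171197652992,
    -5877981298627798312105384345600, 10336980035080713928704,
    26910805079744099843296817315840, -2163123495283753746432,
    -97323924555021246741924884250624, 0, 280969973654393562558007150116864, 0,
    -651844163807585780239472382705664, 0, 1219102066390679723796042382049280, 0,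
    -1837401472757793640406345712664576, 0, 2222584421774068074648412476145664, 0,
    -2139408355864420005226070050603008, 0, 1615430103065597536612638003298304, 0,
    -935431545164615764908971424481280, 0, 400745135554083106130333653794816, 0,
    -119599901776412432680183134158848, 0, 22189918733813601438009409929216, 0,
    -1926402395104221819140409655296]

/-- second derivative of `PL` -/
def PL2 : List ℤ :=
    [1004293083253459512, -29068187249627424, -736450117789660443648, -12918475549937639680,
    121037120325210921734400, 475858845999859644672, -8975034538419812748820480,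
    -3771297572423440011264, 370779612804451185496519680, 6586329797098770667520,
    -9507512715835798851034079232, 33097201664748068929536, 162321942357162394638958264320,
    -176640464319535733637120, -1943747957473768699412270284800, 356072210278117776818176,
    16987158895243705463438803206144, -374995661511081557753856,
    -111681644673928167930002302566400, 206739600701614278574080,
    565126906674626096709233163632640, -47588716896242582421504,
    -2238450264765488675064272337764352, 0, 7024249341359839063950178752921600, 0,
    -17599792422804816066465754333052928, 0, 35353959925329711990085229079429120, 0,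
    -56959445655491602852596717092601856, 0, 73345285918544246463397611712806912, 0,
    -74879292455254700182912451771105280, 0, 59770913813427108854667606122037248, 0,
    -36481830261420014831449885554769920, 0, 16430550557717407351343679805587456, 0,
    -5142795776385734605247874768830464, 0, 998546343021612064710423446814720, 0,
    -90540912569898425499599253798912]

/-- all coefficients are zero -/
def allz (l : List ℤ) : Bool := l.all fun a => decide (a = 0)

theorem ev_allz (l : List ℤ) (h : allz l = true) (u : ℝ) : ev l u = 0 := by
  induction l with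
  | nil => simp [ev]
  | cons a as ih =>
    simp only [allz, List.all_cons, Bool.and_eq_true, decide_eq_true_eq] at h
    simp only [ev, h.1, ih h.2]
    simp

theorem PL_allz : allz (add (smul (-1) PL)
    (add (smul (2 ^ 50) pL) (add GLs (smul (-1) (comp GLs))))) = true := by decide +kernel

theorem PL1_allz : allz (add (smul (-1) PL1) (der PL)) = true := by decide +kernel

theorem PL2_allz : allz (add (smul (-1) PL2) (der PL1)) = true := by decide +kernel

/-- A cover of `[cur / 2 ^ 20, fin / 2 ^ 20]`: an item `(C, Q, m)` with `Q > 0` is a cell with centre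
`C / Q` and half-width `1 / Q`, `m = 2 ^ 20 / Q`; an item `(A, 0, _)` is the interval
`[A - 1024, A + 1024] / 2 ^ 20`. -/
def cover (fin : ℤ) : List (ℤ × ℤ × ℤ) → ℤ → Bool
  | [], cur => decide (fin ≤ cur)
  | (C, Q, m) :: r, cur =>
    if Q = 0 then decide (C - 1024 ≤ cur) && cover fin r (C + 1024)
    else decide (0 < Q) && (decide (m * Q = 2 ^ 20) && (decide ((C - 1) * m ≤ cur) &&
      (cell PL 5086164326681262 C Q && cover fin r ((C + 1) * m))))

/-- the intervals around the orbit -/
def AA : List ℤ := [949431, 670746, -190460, -979387, 780950, 114684, -1023490]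

/-- the property that is checked -/
def Good (u : ℝ) : Prop :=
  (∃ A ∈ AA, |u - (A : ℝ) / 2 ^ 20| ≤ 1024 / 2 ^ 20) ∨ ev PL u ≤ 5086164326681262

theorem cover_sound (fin : ℤ) (l : List (ℤ × ℤ × ℤ)) :
    ∀ cur : ℤ, cover fin l cur = true → (l.all fun p => decide (p.2.1 ≠ 0) || decide (p.1 ∈ AA)) = true →
    ∀ u : ℝ, (cur : ℝ) / 2 ^ 20 ≤ u → u < (fin : ℝ) / 2 ^ 20 → Good u := by
  induction l with
  | nil =>
    intro cur h _ u h1 h2
    simp only [cover, decide_eq_true_eq] at h
    have h' : (fin : ℝ) ≤ cur := by exact_mod_cast h
    have : (fin : ℝ) / 2 ^ 20 ≤ (cur : ℝ) / 2 ^ 20 := by gcongr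
    linarith
  | cons p r ih =>
    obtain ⟨C, Q, m⟩ := p
    intro cur h hA u h1 h2
    simp only [List.all_cons, Bool.and_eq_true, Bool.or_eq_true, decide_eq_true_eq] at hA
    obtain ⟨hA1, hA2⟩ := hA
    by_cases hQ : Q = 0
    · simp only [cover, hQ, if_true, Bool.and_eq_true, decide_eq_true_eq] at h
      obtain ⟨h3, h4⟩ := h
      have h3' : (C : ℝ) - 1024 ≤ cur := by exact_mod_cast h3
      rcases le_or_gt (((C : ℝ) + 1024) / 2 ^ 20) u with h5 | h5
      · refine ih (C + 1024) h4 hA2 u ?_ h2
        push_cast; exact h5
      · left
        refine ⟨C, ?_, ?_⟩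
        · rcases hA1 with h | h
          · exact absurd hQ h
          · exact h
        · rw [abs_le]
          rw [div_le_iff₀ (by positivity)] at h1
          rw [lt_div_iff₀ (by positivity)] at h5
          constructor
          · rw [neg_le_sub_iff_le_add, ← sub_le_iff_le_add, ← sub_div, div_le_iff₀ (by positivity)]
            linarith
          · rw [sub_le_iff_le_add, ← add_div, le_div_iff₀ (by positivity)]
            linarith
    · simp only [cover, hQ, if_false, Bool.and_eq_true, decide_eq_true_eq] at h
      obtain ⟨h3, h4, h5, h6, h7⟩ := h
      have hQ' : (0 : ℝ) < Q := by exact_mod_cast h3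
      have h4' : (m : ℝ) * Q = 2 ^ 20 := by exact_mod_cast h4
      have h5' : ((C : ℝ) - 1) * m ≤ cur := by exact_mod_cast h5
      have hm : (0 : ℝ) < m := by
        by_contra hcon
        push Not at hcon
        nlinarith
      have hmQ : (m : ℝ) / 2 ^ 20 = 1 / Q := by rw [← h4']; field_simp
      rcases le_or_gt ((((C : ℝ) + 1) * m) / 2 ^ 20) u with h8 | h8
      · refine ih ((C + 1) * m) h7 hA2 u ?_ h2
        push_cast; exact h8
      · right
        refine cell_sound PL _ C Q h3 h6 u ?_
        have e1 : (((C : ℝ) + 1) * m) / 2 ^ 20 = ((C : ℝ) + 1) / Q := by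
          rw [mul_div_assoc, hmQ]; ring
        have e2 : (((C : ℝ) - 1) * m) / 2 ^ 20 = ((C : ℝ) - 1) / Q := by
          rw [mul_div_assoc, hmQ]; ring
        have h9 : (((C : ℝ) - 1) * m) / 2 ^ 20 ≤ (cur : ℝ) / 2 ^ 20 := by gcongr
        rw [e2] at h9
        rw [e1] at h8
        rw [add_div] at h8
        rw [sub_div] at h9
        rw [abs_le]
        constructor <;> linarith

end Pool.Agent.X153.FL
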