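import Pool.Agent.X153.FL.CertD

set_option autoImplicit false

namespace Pool.Agent.X153.FL

def CC : List ℤ :=
    [1043910744314216311, 737492782472084991, -209413031523261507, -1076847257406961624,
    858663865518286569, 126096418123687926, -1125338869362228079]

theorem cells_hi : (CC.all fun C => cellH PL (5086181506550447 + 8) C (2 ^ 60) 32) = true := by
  decide +kernel

theorem cells_lo : (CC.all fun C =>
    cellH (smul (-1) PL) (-(5086181506550447 - 8)) C (2 ^ 60) 32) = true := by decide +kernel

theorem cells_d : (CC.all fun C => cellH PL1 2048 C (2 ^ 60) 32) = true := by decide +kernel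

theorem cells_d' : (CC.all fun C => cellH (smul (-1) PL1) 2048 C (2 ^ 60) 32) = true := by
  decide +kernel

theorem cells_dd : (AA.all fun A => cellH PL2 (-(29 * 2 ^ 50)) A (2 ^ 20) 1030) = true := by
  decide +kernel

end Pool.Agent.X153.FL
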