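import Pool.Agent.X153.FL.CertD

set_option autoImplicit false

namespace Pool.Agent.X153.FL

def ch0 : List (ℤ × ℤ × ℤ) :=
    [(-255, 256, 4096), (-253, 256, 4096), (-503, 512, 2048), (-1003, 1024, 1024),
    (-2003, 2048, 512), (-4003, 4096, 256), (-1023490, 0, 0), (-3995, 4096, 256),
    (-3993, 4096, 256), (-997, 1024, 1024), (-497, 512, 2048), (-123, 128, 8192),
    (-243, 256, 4096), (-483, 512, 2048), (-963, 1024, 1024), (-961, 1024, 1024),
    (-1919, 2048, 512), (-1917, 2048, 512), (-3831, 4096, 256), (-7659, 8192, 128)]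

theorem ch0_ok : cover (-980224) ch0 (-1048576) = true := by decide +kernel

theorem ch0_al : (ch0.all fun p => decide (p.2.1 ≠ 0) || decide (p.1 ∈ AA)) = true := by
  decide +kernel

end Pool.Agent.X153.FL
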