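import Pool.Agent.X153.FL.CertD

set_option autoImplicit false

namespace Pool.Agent.X153.FL

def ch1 : List (ℤ × ℤ × ℤ) :=
    [(-979387, 0, 0), (-3821, 4096, 256), (-1909, 2048, 512), (-953, 1024, 1024),
    (-951, 1024, 1024), (-949, 1024, 1024), (-947, 1024, 1024), (-945, 1024, 1024),
    (-471, 512, 2048), (-469, 512, 2048), (-233, 256, 4096), (-115, 128, 8192),
    (-113, 128, 8192), (-27, 32, 32768), (-25, 32, 32768), (-47, 64, 16384), (-91, 128, 8192),
    (-89, 128, 8192), (-87, 128, 8192), (-85, 128, 8192)]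

theorem ch1_ok : cover (-688128) ch1 (-980224) = true := by decide +kernel

theorem ch1_al : (ch1.all fun p => decide (p.2.1 ≠ 0) || decide (p.1 ∈ AA)) = true := by
  decide +kernel

end Pool.Agent.X153.FL
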