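import Pool.Agent.X153.FL.CertD

set_option autoImplicit false

namespace Pool.Agent.X153.FL

def ch2 : List (ℤ × ℤ × ℤ) :=
    [(-41, 64, 16384), (-19, 32, 32768), (-17, 32, 32768), (-15, 32, 32768), (-13, 32, 32768),
    (-11, 32, 32768), (-19, 64, 16384), (-35, 128, 8192), (-67, 256, 4096), (-65, 256, 4096),
    (-15, 64, 16384), (-27, 128, 8192), (-51, 256, 4096), (-49, 256, 4096), (-191, 1024, 1024),
    (-189, 1024, 1024), (-375, 2048, 512), (-1495, 8192, 128), (-190460, 0, 0),
    (-369, 2048, 512)]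

theorem ch2_ok : cover (-188416) ch2 (-688128) = true := by decide +kernel

theorem ch2_al : (ch2.all fun p => decide (p.2.1 ≠ 0) || decide (p.1 ∈ AA)) = true := by
  decide +kernel

end Pool.Agent.X153.FL
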