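import Pool.Agent.X153.FL.CertD

set_option autoImplicit false

namespace Pool.Agent.X153.FL

def ch3 : List (ℤ × ℤ × ℤ) :=
    [(-183, 1024, 1024), (-181, 1024, 1024), (-89, 512, 2048), (-21, 128, 8192),
    (-9, 64, 16384), (-7, 64, 16384), (-11, 128, 8192), (-9, 128, 8192), (-1, 32, 32768),
    (1, 32, 32768), (9, 128, 8192), (11, 128, 8192), (25, 256, 4096), (53, 512, 2048),
    (109, 1024, 1024), (221, 2048, 512), (114684, 0, 0), (903, 8192, 128), (227, 2048, 512),
    (115, 1024, 1024)]

theorem ch3_ok : cover (118784) ch3 (-188416) = true := by decide +kernel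

theorem ch3_al : (ch3.all fun p => decide (p.2.1 ≠ 0) || decide (p.1 ∈ AA)) = true := by
  decide +kernel

end Pool.Agent.X153.FL
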