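import Pool.Agent.X153.FL.CertD

set_option autoImplicit false

namespace Pool.Agent.X153.FL

def ch4 : List (ℤ × ℤ × ℤ) :=
    [(59, 512, 2048), (31, 256, 4096), (9, 64, 16384), (21, 128, 8192), (23, 128, 8192),
    (13, 64, 16384), (15, 64, 16384), (33, 128, 8192), (35, 128, 8192), (19, 64, 16384),
    (11, 32, 32768), (13, 32, 32768), (57, 128, 8192), (117, 256, 4096), (119, 256, 4096),
    (121, 256, 4096), (123, 256, 4096), (63, 128, 8192), (17, 32, 32768), (37, 64, 16384)]

theorem ch4_ok : cover (622592) ch4 (118784) = true := by decide +kernel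

theorem ch4_al : (ch4.all fun p => decide (p.2.1 ≠ 0) || decide (p.1 ∈ AA)) = true := by
  decide +kernel

end Pool.Agent.X153.FL
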