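import Pool.Agent.X153.FL.CertD

set_option autoImplicit false

namespace Pool.Agent.X153.FL

def ch5 : List (ℤ × ℤ × ℤ) :=
    [(77, 128, 8192), (157, 256, 4096), (159, 256, 4096), (321, 512, 2048), (323, 512, 2048),
    (649, 1024, 1024), (651, 1024, 1024), (1305, 2048, 512), (2613, 4096, 256),
    (2615, 4096, 256), (10465, 16384, 64), (670746, 0, 0), (2625, 4096, 256),
    (2627, 4096, 256), (1315, 2048, 512), (659, 1024, 1024), (331, 512, 2048),
    (167, 256, 4096), (85, 128, 8192), (87, 128, 8192)]

theorem ch5_ok : cover (720896) ch5 (622592) = true := by decide +kernel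

theorem ch5_al : (ch5.all fun p => decide (p.2.1 ≠ 0) || decide (p.1 ∈ AA)) = true := by
  decide +kernel

end Pool.Agent.X153.FL
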