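import Pool.Agent.X153.FL.CertD

set_option autoImplicit false

namespace Pool.Agent.X153.FL

def ch6 : List (ℤ × ℤ × ℤ) :=
    [(45, 64, 16384), (93, 128, 8192), (377, 512, 2048), (757, 1024, 1024), (759, 1024, 1024),
    (1521, 2048, 512), (3045, 4096, 256), (6093, 8192, 128), (780950, 0, 0), (3055, 4096, 256),
    (1529, 2048, 512), (1531, 2048, 512), (767, 1024, 1024), (193, 256, 4096),
    (195, 256, 4096), (197, 256, 4096), (199, 256, 4096), (201, 256, 4096), (203, 256, 4096),
    (103, 128, 8192)]

theorem ch6_ok : cover (851968) ch6 (720896) = true := by decide +kernel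

theorem ch6_al : (ch6.all fun p => decide (p.2.1 ≠ 0) || decide (p.1 ∈ AA)) = true := by
  decide +kernel

end Pool.Agent.X153.FL
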