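import Pool.Agent.X153.FL.CertD

set_option autoImplicit false

namespace Pool.Agent.X153.FL

def ch7 : List (ℤ × ℤ × ℤ) :=
    [(53, 64, 16384), (55, 64, 16384), (113, 128, 8192), (229, 256, 4096), (461, 512, 2048),
    (1849, 2048, 512), (1851, 2048, 512), (3705, 4096, 256), (949431, 0, 0), (1857, 2048, 512),
    (1859, 2048, 512), (931, 1024, 1024), (467, 512, 2048), (235, 256, 4096), (119, 128, 8192),
    (61, 64, 16384), (125, 128, 8192), (127, 128, 8192), (1048576, 1048576, 1)]

theorem ch7_ok : cover (1048577) ch7 (851968) = true := by decide +kernel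

theorem ch7_al : (ch7.all fun p => decide (p.2.1 ≠ 0) || decide (p.1 ∈ AA)) = true := by
  decide +kernel

end Pool.Agent.X153.FL
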