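import Pool.Agent.X153.FL.Sub2

set_option autoImplicit false

open Finset MeasureTheory
open scoped ENNReal

namespace Pool.Agent.X153.FL

/-- cosine on the circle -/
noncomputable def cz (x : UnitAddCircle) : ℝ := (fourier 1 x : ℂ).re

theorem cz_coe (t : ℝ) : cz (t : UnitAddCircle) = Real.cos (2 * Real.pi * t) := by
  unfold cz
  rw [fourier_coe_apply]
  have : (2 * Real.pi * Complex.I * (1 : ℤ) * t / (1 : ℝ) : ℂ) =
      ((2 * Real.pi * t : ℝ) : ℂ) * Complex.I := by
    push_cast; ring
  rw [this, Complex.exp_ofReal_mul_I_re]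

theorem cz_cont : Continuous cz := by
  unfold cz
  exact Complex.continuous_re.comp (fourier 1).continuous

theorem cz_dbl (x : UnitAddCircle) : cz (x + x) = 2 * cz x ^ 2 - 1 := by
  induction x using QuotientAddGroup.induction_on with
  | H t =>
    have h : ((t : UnitAddCircle) + (t : UnitAddCircle)) = ((t + t : ℝ) : UnitAddCircle) := by
      push_cast; rfl
    have h1 := cz_coe (t + t)
    have h2 := cz_coe t
    change cz ((t : UnitAddCircle) + (t : UnitAddCircle)) = 2 * cz (t : UnitAddCircle) ^ 2 - 1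
    rw [h, h1, h2]
    have : 2 * Real.pi * (t + t) = 2 * (2 * Real.pi * t) := by ring
    rw [this, Real.cos_two_mul]

theorem cz_bd (x : UnitAddCircle) : -1 ≤ cz x ∧ cz x ≤ 1 := by
  induction x using QuotientAddGroup.induction_on with
  | H t =>
    change -1 ≤ cz (t : UnitAddCircle) ∧ cz (t : UnitAddCircle) ≤ 1
    rw [cz_coe]
    exact ⟨Real.neg_one_le_cos _, Real.cos_le_one _⟩

theorem pp_cont : Continuous pp := by unfold pp; fun_prop

/-- the upper bound for invariant measures -/
theorem upper (ν : Measure UnitAddCircle) [IsProbabilityMeasure ν]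
    (hν : ν.map (fun x => x + x) = ν) :
    ∫ x, pp (cz x) ∂ν ≤ (∑ i ∈ range 7, pp (U i)) / 7 := by
  obtain ⟨φ, hm, ⟨M, hM⟩, hφ⟩ := subaction
  set β := (∑ i ∈ range 7, pp (U i)) / 7
  have hdm : Measurable (fun x : UnitAddCircle => x + x) := by fun_prop
  have hmz : Measurable fun x => φ (cz x) := hm.comp cz_cont.measurable
  have i1 : Integrable (fun x => φ (cz x)) ν := by
    refine Integrable.of_bound hmz.aestronglyMeasurable M ?_
    refine Filter.Eventually.of_forall fun x => ?_
    rw [Real.norm_eq_abs]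
    exact hM _ (cz_bd x).1 (cz_bd x).2
  have i2 : Integrable (fun x => φ (cz (x + x))) ν := by
    refine Integrable.of_bound (hmz.comp hdm).aestronglyMeasurable M ?_
    refine Filter.Eventually.of_forall fun x => ?_
    rw [Real.norm_eq_abs]
    exact hM _ (cz_bd _).1 (cz_bd _).2
  have i3 : Integrable (fun x => pp (cz x)) ν := by
    obtain ⟨K, hK⟩ := (isCompact_Icc (a := (-1 : ℝ)) (b := 1)).exists_bound_of_continuousOn
      pp_cont.continuousOn
    refine Integrable.of_bound (pp_cont.comp cz_cont).aestronglyMeasurable K ?_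
    exact Filter.Eventually.of_forall fun x => hK _ ⟨(cz_bd x).1, (cz_bd x).2⟩
  have e1 : ∫ x, φ (cz (x + x)) ∂ν = ∫ x, φ (cz x) ∂ν := by
    conv_rhs => rw [← hν]
    rw [integral_map hdm.aemeasurable (by rw [hν]; exact hmz.aestronglyMeasurable)]
  have e2 : ∫ x, (pp (cz x) + φ (cz x) - φ (cz (x + x))) ∂ν ≤ ∫ _x, β ∂ν := by
    apply integral_mono ((i3.add i1).sub i2) (integrable_const _)
    intro x
    change pp (cz x) + φ (cz x) - φ (cz (x + x)) ≤ β
    rw [cz_dbl]
    exact hφ _ (cz_bd x).1 (cz_bd x).2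
  have e3 : ∫ x, (pp (cz x) + φ (cz x) - φ (cz (x + x))) ∂ν =
      ∫ x, pp (cz x) ∂ν + ∫ x, φ (cz x) ∂ν - ∫ x, φ (cz (x + x)) ∂ν := by
    have h1 := integral_sub (i3.add i1) i2
    have h2 := integral_add i3 i1
    rw [← h2]
    exact h1
  rw [e3, e1] at e2
  simp only [integral_const, probReal_univ, one_smul] at e2
  linarith

/-- points of the orbit -/
noncomputable def xo (i : ℕ) : UnitAddCircle := ((3 * 2 ^ i / 43 : ℝ) : UnitAddCircle)

theorem xo_succ (i : ℕ) : xo i + xo i = xo (i + 1) := by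
  unfold xo
  rw [← AddCircle.coe_add]
  congr 1
  ring

theorem xo_14 : xo 14 = xo 0 := by
  unfold xo
  have : (3 * 2 ^ 14 / 43 : ℝ) = 3 * 2 ^ 0 / 43 + ((1143 : ℤ) : ℝ) * 1 := by norm_num
  rw [this, AddCircle.coe_add]
  have h2 : (((1143 : ℤ) : ℝ) * 1 : ℝ) = (1143 : ℤ) • (1 : ℝ) := by simp
  rw [h2, AddCircle.coe_zsmul, AddCircle.coe_period]
  simp

theorem cz_xo (i : ℕ) : cz (xo i) = U i := by
  unfold xo U
  rw [cz_coe]
  congr 1
  push_cast
  ring

/-- the uniform measure on the orbit -/
noncomputable def mo : Measure UnitAddCircle :=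
  (14 : ℝ≥0∞)⁻¹ • ∑ i ∈ range 14, Measure.dirac (xo i)

theorem mo_prob : IsProbabilityMeasure mo := by
  constructor
  unfold mo
  simp only [Measure.smul_apply, Measure.coe_finsetSum, Finset.sum_apply, measure_univ,
    sum_const, card_range, nsmul_eq_mul, smul_eq_mul, mul_one]
  exact ENNReal.inv_mul_cancel (by norm_num) (by norm_num)

theorem mo_inv : mo.map (fun x => x + x) = mo := by
  have hdm : Measurable (fun x : UnitAddCircle => x + x) := by fun_prop
  unfold mo
  rw [Measure.map_smul]
  congr 1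
  rw [← Measure.mapₗ_apply_of_measurable hdm, map_sum]
  have h : ∀ i ∈ range 14, Measure.mapₗ (fun x : UnitAddCircle => x + x) (Measure.dirac (xo i)) =
      Measure.dirac (xo (i + 1)) := by
    intro i _
    rw [Measure.mapₗ_apply_of_measurable hdm, Measure.map_dirac, xo_succ]
  rw [sum_congr rfl h, sum_range_succ, xo_14, sum_range_succ' _ 13]

theorem mo_int : ∫ x, pp (cz x) ∂mo = (∑ i ∈ range 7, pp (U i)) / 7 := by
  unfold mo
  rw [integral_smul_measure, integral_finsetSum_measure]
  · simp only [integral_dirac, cz_xo]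
    have h : ∑ i ∈ range 14, pp (U i) = 2 * ∑ i ∈ range 7, pp (U i) := by
      rw [show (14 : ℕ) = 7 + 7 by norm_num, sum_range_add]
      simp only [add_comm 7, U_add_seven]
      ring
    rw [h]
    simp only [ENNReal.toReal_inv, smul_eq_mul]
    norm_num
    ring
  · intro i _
    exact integrable_dirac (by simp)

theorem mo_pos (i : ℕ) (hi : i < 14) : xo i ∈ mo.support := by
  rw [Measure.mem_support_iff_forall]
  intro V hV
  unfold mo
  rw [Measure.smul_apply, Measure.coe_finsetSum, Finset.sum_apply, smul_eq_mul]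
  apply ENNReal.mul_pos
  · simp
  · intro hcon
    rw [Finset.sum_eq_zero_iff] at hcon
    have h1 := hcon i (mem_range.2 hi)
    have h2 := Measure.dirac_apply_of_mem (mem_of_mem_nhds hV)
    rw [h2] at h1
    exact one_ne_zero h1

end Pool.Agent.X153.FL
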