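import Pool.Agent.X153.FL.Circle

set_option autoImplicit false

open Set MeasureTheory

namespace Pool.Agent.X153.FL

/-- a closed non-degenerate arc of the circle -/
def IsArc (A : Set UnitAddCircle) : Prop :=
  ∃ a b : ℝ, a < b ∧ b < a + 1 ∧ A = (fun t : ℝ => (t : UnitAddCircle)) '' Icc a b

/-- a flower -/
def IsFlower (X : Set UnitAddCircle) : Prop :=
  (∃ S : Set (Set UnitAddCircle), S.Finite ∧ (∀ A ∈ S, IsArc A) ∧ X = ⋃₀ S) ∧
  X ∪ (fun x => x + ((1 / 2 : ℝ) : UnitAddCircle)) '' X = univ ∧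
  X ∩ (fun x => x + ((1 / 2 : ℝ) : UnitAddCircle)) '' X = frontier X

/-- the connected components of `X` -/
def petals (X : Set UnitAddCircle) : Set (Set UnitAddCircle) :=
  {C | ∃ x ∈ X, C = connectedComponentIn X x}

theorem isOpen_arc (a b : ℝ) : IsOpen ((fun t : ℝ => (t : UnitAddCircle)) '' Ioo a b) :=
  QuotientAddGroup.isOpenMap_coe _ isOpen_Ioo

theorem arcs (C : Set UnitAddCircle) (hC : IsPreconnected C) (a b : ℝ) (hab : a < b)
    (hb : b < a + 1) (ha' : (a : UnitAddCircle) ∈ C) (hb' : (b : UnitAddCircle) ∈ C) :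
    (∀ s ∈ Ioo a b, (s : UnitAddCircle) ∈ C) ∨ (∀ s ∈ Ioo b (a + 1), (s : UnitAddCircle) ∈ C) := by
  by_contra hcon
  push Not at hcon
  obtain ⟨⟨s1, h1, h1'⟩, ⟨s2, h2, h2'⟩⟩ := hcon
  have hsub : C ⊆ (fun t : ℝ => (t : UnitAddCircle)) '' Ioo s1 s2 ∪
      (fun t : ℝ => (t : UnitAddCircle)) '' Ioo s2 (s1 + 1) := by
    intro x hx
    have hx' : x ∈ (fun t : ℝ => (t : UnitAddCircle)) '' Ico s1 (s1 + 1) := by
      have := AddCircle.coe_image_Ico_eq (1 : ℝ) s1
      rw [show ((fun t : ℝ => (t : UnitAddCircle)) '' Ico s1 (s1 + 1)) = univ from this]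
      exact mem_univ x
    obtain ⟨t, ht, rfl⟩ := hx'
    have n1 : t ≠ s1 := by rintro rfl; exact h1' hx
    have n2 : t ≠ s2 := by rintro rfl; exact h2' hx
    rcases lt_or_gt_of_ne n2 with h | h
    · left; exact ⟨t, ⟨lt_of_le_of_ne ht.1 n1.symm, h⟩, rfl⟩
    · right; exact ⟨t, ⟨h, ht.2⟩, rfl⟩
  obtain ⟨z, _, ⟨t1, ht1, e1⟩, ⟨t2, ht2, e2⟩⟩ := hC _ _ (isOpen_arc s1 s2)
    (isOpen_arc s2 (s1 + 1)) hsub ⟨_, hb', ⟨b, ⟨h1.2, h2.1⟩, rfl⟩⟩
    ⟨_, ha', ⟨a + 1, ⟨h2.2, by linarith [h1.1]⟩, by simp⟩⟩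
  have e3 : (t1 : UnitAddCircle) = (t2 : UnitAddCircle) := e1.trans e2.symm
  have m1 : t1 ∈ Ico s1 (s1 + 1) := ⟨ht1.1.le, by linarith [ht1.2, h2.2, h1.1]⟩
  have m2 : t2 ∈ Ico s1 (s1 + 1) := ⟨by linarith [ht2.1, h1.2, h2.1], ht2.2⟩
  have e4 : t1 = t2 := (AddCircle.coe_eq_coe_iff_of_mem_Ico (p := (1 : ℝ)) m1 m2).1 e3
  linarith [ht1.2, ht2.1]

theorem xo_eq (i m k : ℕ) (h : 3 * 2 ^ i = 43 * m + k) :
    xo i = ((k / 43 : ℝ) : UnitAddCircle) := by
  unfold xo
  have h' : (3 * 2 ^ i : ℝ) = 43 * m + k := by exact_mod_cast h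
  rw [h']
  have : ((43 * m + k) / 43 : ℝ) = k / 43 + ((m : ℤ) : ℝ) * 1 := by push_cast; ring
  rw [this, AddCircle.coe_add]
  have h2 : (((m : ℤ) : ℝ) * 1 : ℝ) = (m : ℤ) • (1 : ℝ) := by simp
  rw [h2, AddCircle.coe_zsmul, AddCircle.coe_period]
  simp

/-- witnesses in `X` -/
noncomputable def Pw : Fin 7 → ℝ :=
  ![(3 : ℕ) / 43, (10 : ℕ) / 43, (12 : ℕ) / 43, (19 : ℕ) / 43, (31 : ℕ) / 43, (33 : ℕ) / 43,
    (37 : ℕ) / 43]

/-- witnesses in `X + 1/2` -/
noncomputable def Qw : Fin 7 → ℝ :=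
  ![(31 : ℕ) / 43 - 1 / 2, (33 : ℕ) / 43 - 1 / 2, (37 : ℕ) / 43 - 1 / 2, (3 : ℕ) / 43 + 1 / 2,
    (10 : ℕ) / 43 + 1 / 2, (12 : ℕ) / 43 + 1 / 2, (19 : ℕ) / 43 + 1 / 2]

theorem half_eq (a : ℝ) : ((a - 1 / 2 : ℝ) : UnitAddCircle) =
    (a : UnitAddCircle) + ((1 / 2 : ℝ) : UnitAddCircle) := by
  rw [← AddCircle.coe_add]
  have : (a + 1 / 2 : ℝ) = (a - 1 / 2) + 1 := by ring
  rw [this, AddCircle.coe_add]
  simp

theorem Pw_mem (X : Set UnitAddCircle) (hX : ∀ i < 14, xo i ∈ X) (j : Fin 7) :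
    (Pw j : UnitAddCircle) ∈ X := by
  have k3 := hX 0 (by norm_num); rw [xo_eq 0 0 3 (by norm_num)] at k3
  have k10 := hX 5 (by norm_num); rw [xo_eq 5 2 10 (by norm_num)] at k10
  have k12 := hX 2 (by norm_num); rw [xo_eq 2 0 12 (by norm_num)] at k12
  have k19 := hX 10 (by norm_num); rw [xo_eq 10 71 19 (by norm_num)] at k19
  have k31 := hX 9 (by norm_num); rw [xo_eq 9 35 31 (by norm_num)] at k31
  have k33 := hX 12 (by norm_num); rw [xo_eq 12 285 33 (by norm_num)] at k33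
  have k37 := hX 8 (by norm_num); rw [xo_eq 8 17 37 (by norm_num)] at k37
  fin_cases j
  exacts [k3, k10, k12, k19, k31, k33, k37]

theorem Qw_mem (X : Set UnitAddCircle) (hX : ∀ i < 14, xo i ∈ X) (j : Fin 7) :
    (Qw j : UnitAddCircle) ∈ (fun x => x + ((1 / 2 : ℝ) : UnitAddCircle)) '' X := by
  have k3 := hX 0 (by norm_num); rw [xo_eq 0 0 3 (by norm_num)] at k3
  have k10 := hX 5 (by norm_num); rw [xo_eq 5 2 10 (by norm_num)] at k10
  have k12 := hX 2 (by norm_num); rw [xo_eq 2 0 12 (by norm_num)] at k12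
  have k19 := hX 10 (by norm_num); rw [xo_eq 10 71 19 (by norm_num)] at k19
  have k31 := hX 9 (by norm_num); rw [xo_eq 9 35 31 (by norm_num)] at k31
  have k33 := hX 12 (by norm_num); rw [xo_eq 12 285 33 (by norm_num)] at k33
  have k37 := hX 8 (by norm_num); rw [xo_eq 8 17 37 (by norm_num)] at k37
  fin_cases j
  · exact ⟨_, k31, (half_eq _).symm⟩
  · exact ⟨_, k33, (half_eq _).symm⟩
  · exact ⟨_, k37, (half_eq _).symm⟩
  · exact ⟨_, k3, (AddCircle.coe_add _ _ _).symm⟩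
  · exact ⟨_, k10, (AddCircle.coe_add _ _ _).symm⟩
  · exact ⟨_, k12, (AddCircle.coe_add _ _ _).symm⟩
  · exact ⟨_, k19, (AddCircle.coe_add _ _ _).symm⟩

theorem order1 (i j : Fin 7) (hij : i < j) : Pw i < Qw i ∧ Qw i < Pw j := by
  fin_cases i <;> fin_cases j <;> simp_all [Pw, Qw] <;> norm_num

theorem order2 (i j : Fin 7) (hij : i < j) : Pw j < Qw j ∧ Qw j < Pw i + 1 := by
  fin_cases i <;> fin_cases j <;> simp_all [Pw, Qw] <;> norm_num

theorem order3 (i j : Fin 7) (hij : i < j) : Pw j < Pw i + 1 := by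
  have := order2 i j hij
  linarith [this.1, this.2]

/-- a flower containing the orbit has at least seven components -/
theorem seven (X : Set UnitAddCircle)
    (hfr : X ∩ (fun x => x + ((1 / 2 : ℝ) : UnitAddCircle)) '' X = frontier X)
    (hX : ∀ i < 14, xo i ∈ X) : 7 ≤ (petals X).encard := by
  have hP := Pw_mem X hX
  have hQ := Qw_mem X hX
  -- no open arc inside `X` contains a point of `Qw`
  have hno : ∀ a b : ℝ, (∀ s ∈ Ioo a b, (s : UnitAddCircle) ∈ X) → ∀ j, Qw j ∉ Ioo a b := by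
    intro a b hab j hj
    have h1 : (Qw j : UnitAddCircle) ∈ interior X := by
      rw [mem_interior]
      refine ⟨_, ?_, isOpen_arc a b, ⟨Qw j, hj, rfl⟩⟩
      rintro _ ⟨s, hs, rfl⟩
      exact hab s hs
    have h2 : (Qw j : UnitAddCircle) ∈ frontier X := by
      rw [← hfr]
      exact ⟨interior_subset h1, hQ j⟩
    exact disjoint_left.1 disjoint_interior_frontier h1 h2
  have hinj : Function.Injective fun j : Fin 7 => connectedComponentIn X (Pw j : UnitAddCircle) := by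
    have key : ∀ i j : Fin 7, i < j → connectedComponentIn X (Pw i : UnitAddCircle) ≠
        connectedComponentIn X (Pw j : UnitAddCircle) := by
      intro i j hij he
      have o1 := order1 i j hij
      have o2 := order2 i j hij
      have hc := isPreconnected_connectedComponentIn (F := X) (x := (Pw i : UnitAddCircle))
      have hs := connectedComponentIn_subset X (Pw i : UnitAddCircle)
      have m1 := mem_connectedComponentIn (hP i)
      have m2 : (Pw j : UnitAddCircle) ∈ connectedComponentIn X (Pw i : UnitAddCircle) := by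
        rw [he]; exact mem_connectedComponentIn (hP j)
      rcases arcs _ hc (Pw i) (Pw j) (by linarith) (order3 i j hij) m1 m2 with h | h
      · exact hno _ _ (fun s hs' => hs (h s hs')) i o1
      · exact hno _ _ (fun s hs' => hs (h s hs')) j o2
    intro i j he
    rcases lt_trichotomy i j with h | h | h
    · exact absurd he (key i j h)
    · exact h
    · exact absurd he.symm (key j i h)
  have hr := hinj.encard_range
  have hsub : range (fun j : Fin 7 => connectedComponentIn X (Pw j : UnitAddCircle)) ⊆ petals X := by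
    rintro _ ⟨j, rfl⟩
    exact ⟨_, hP j, rfl⟩
  have h7 : ENat.card (Fin 7) = 7 := by simp
  rw [h7] at hr
  exact hr.trans (encard_le_encard hsub)

theorem cos_five (t : ℝ) : Real.cos (5 * t) = 16 * Real.cos t ^ 5 - 20 * Real.cos t ^ 3 +
    5 * Real.cos t := by
  have h : 5 * t = 3 * t + 2 * t := by ring
  rw [h, Real.cos_add, Real.cos_three_mul, Real.sin_three_mul, Real.cos_two_mul, Real.sin_two_mul]
  have hs : Real.sin t ^ 2 = 1 - Real.cos t ^ 2 := Real.sin_sq t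
  have h4 : (3 * Real.sin t - 4 * Real.sin t ^ 3) * (2 * Real.sin t * Real.cos t) =
      2 * Real.cos t * (Real.sin t ^ 2) * (3 - 4 * (Real.sin t ^ 2)) := by ring
  rw [h4, hs]
  ring

theorem pp_cos (t : ℝ) : pp (Real.cos t) =
    -(7 * Real.cos t + 9 * Real.cos (3 * t) + 6 * Real.cos (5 * t)) := by
  rw [cos_five, Real.cos_three_mul]
  unfold pp
  ring

end Pool.Agent.X153.FL
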