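import Mathlib

set_option autoImplicit false

open Real

namespace Pool.Agent.X153.FL

/-- the orbit of `3 / 43` under doubling, in the variable `cos (2 π x)` -/
noncomputable def U (i : ℕ) : ℝ := cos (2 * π * ((3 * 2 ^ i : ℕ) / 43 : ℝ))

theorem U_succ (i : ℕ) : 2 * U i ^ 2 - 1 = U (i + 1) := by
  unfold U
  rw [← cos_two_mul]
  congr 1
  push_cast
  ring

theorem U_add_seven (i : ℕ) : U (i + 7) = U i := by
  unfold U
  have h : 2 * π * ((3 * 2 ^ (i + 7) : ℕ) / 43 : ℝ) =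
      ((9 * 2 ^ i : ℕ) : ℝ) * (2 * π) - 2 * π * ((3 * 2 ^ i : ℕ) / 43 : ℝ) := by
    push_cast
    ring
  rw [h, cos_nat_mul_two_pi_sub]

theorem U_abs (i : ℕ) : |U i| ≤ 1 := abs_cos_le_one _

theorem U0_pos : 0 < U 0 := by
  unfold U
  apply cos_pos_of_mem_Ioo
  constructor <;> norm_num <;> nlinarith [pi_pos]

theorem U1_pos : 0 < U 1 := by
  unfold U
  apply cos_pos_of_mem_Ioo
  constructor <;> norm_num <;> nlinarith [pi_pos]

theorem U2_neg : U 2 < 0 := by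
  unfold U
  apply cos_neg_of_pi_div_two_lt_of_lt <;> norm_num <;> nlinarith [pi_pos]

theorem U3_neg : U 3 < 0 := by
  unfold U
  apply cos_neg_of_pi_div_two_lt_of_lt <;> norm_num <;> nlinarith [pi_pos]

theorem U4_pos : 0 < U 4 := by
  have h : U 4 = cos (2 * π * (5 / 43)) := by
    unfold U
    have : 2 * π * ((3 * 2 ^ 4 : ℕ) / 43 : ℝ) = 2 * π * (5 / 43) + 2 * π := by
      push_cast; ring
    rw [this, cos_add_two_pi]
  rw [h]
  apply cos_pos_of_mem_Ioo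
  constructor <;> nlinarith [pi_pos]

theorem U5_pos : 0 < U 5 := by
  have h : U 5 = cos (2 * π * (10 / 43)) := by
    unfold U
    have : 2 * π * ((3 * 2 ^ 5 : ℕ) / 43 : ℝ) = 2 * π * (10 / 43) + (2 : ℕ) * (2 * π) := by
      push_cast; ring
    rw [this, cos_add_nat_mul_two_pi]
  rw [h]
  apply cos_pos_of_mem_Ioo
  constructor <;> nlinarith [pi_pos]

theorem U6_neg : U 6 < 0 := by
  have h : U 6 = cos (2 * π * (20 / 43)) := by
    unfold U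
    have : 2 * π * ((3 * 2 ^ 6 : ℕ) / 43 : ℝ) = 2 * π * (20 / 43) + (4 : ℕ) * (2 * π) := by
      push_cast; ring
    rw [this, cos_add_nat_mul_two_pi]
  rw [h]
  apply cos_neg_of_pi_div_two_lt_of_lt <;> nlinarith [pi_pos]

theorem step_pos {x y lo hi a b : ℝ} (h : 2 * x ^ 2 - 1 = y) (hx : 0 < x) (hlo : lo ≤ y)
    (hhi : y ≤ hi) (ha : 2 * a ^ 2 - 1 ≤ lo) (hb : hi ≤ 2 * b ^ 2 - 1) (hb0 : 0 ≤ b) :
    a ≤ x ∧ x ≤ b := by
  constructor
  · by_contra hc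
    push Not at hc
    nlinarith
  · exact abs_le_of_sq_le_sq' (by nlinarith) hb0 |>.2

theorem step_neg {x y lo hi a b : ℝ} (h : 2 * x ^ 2 - 1 = y) (hx : x < 0) (hlo : lo ≤ y)
    (hhi : y ≤ hi) (ha : hi ≤ 2 * a ^ 2 - 1) (hb : 2 * b ^ 2 - 1 ≤ lo) (ha0 : a ≤ 0) :
    a ≤ x ∧ x ≤ b := by
  obtain ⟨h1, h2⟩ := step_pos (x := -x) (y := y) (lo := lo) (hi := hi) (a := -b) (b := -a)
    (by rw [← h]; ring) (by linarith) hlo hhi (by nlinarith) (by nlinarith) (by linarith)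
  constructor <;> linarith

/-- coarse enclosures -/
theorem coarse : (0.90 ≤ U 0 ∧ U 0 ≤ 0.91) ∧ (0.63 ≤ U 1 ∧ U 1 ≤ 0.65) ∧
    (-0.19 ≤ U 2 ∧ U 2 ≤ -0.17) ∧ (-0.94 ≤ U 3 ∧ U 3 ≤ -0.93) ∧ (0.74 ≤ U 4 ∧ U 4 ≤ 0.75) ∧
    (0.10 ≤ U 5 ∧ U 5 ≤ 0.112) ∧ (-0.98 ≤ U 6 ∧ U 6 ≤ -0.97) := by
  have e0 := U_succ 0
  have e1 := U_succ 1
  have e2 := U_succ 2
  have e3 := U_succ 3
  have e4 := U_succ 4
  have e5 := U_succ 5
  have e6 : 2 * U 6 ^ 2 - 1 = U 0 := by rw [U_succ 6]; exact U_add_seven 0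
  norm_num at e0 e1 e2 e3 e4 e5
  have b6 : (-1 : ℝ) ≤ U 6 ∧ U 6 ≤ 0 := ⟨(abs_le.1 (U_abs 6)).1, U6_neg.le⟩
  have b5 : (0 : ℝ) ≤ U 5 ∧ U 5 ≤ 0.708 := by
    constructor
    · exact U5_pos.le
    · exact (step_pos e5 U5_pos b6.1 b6.2 (a := 0) (b := 0.708) (by norm_num) (by norm_num)
        (by norm_num)).2
  have b4 : (0.7 : ℝ) ≤ U 4 ∧ U 4 ≤ 0.93 :=
    step_pos e4 U4_pos b5.1 b5.2 (by norm_num) (by norm_num) (by norm_num)
  have b3 : (-0.983 : ℝ) ≤ U 3 ∧ U 3 ≤ -0.92 :=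
    step_neg e3 U3_neg b4.1 b4.2 (by norm_num) (by norm_num) (by norm_num)
  have b2 : (-0.201 : ℝ) ≤ U 2 ∧ U 2 ≤ -0.092 :=
    step_neg e2 U2_neg b3.1 b3.2 (by norm_num) (by norm_num) (by norm_num)
  have b1 : (0.632 : ℝ) ≤ U 1 ∧ U 1 ≤ 0.674 :=
    step_pos e1 U1_pos b2.1 b2.2 (by norm_num) (by norm_num) (by norm_num)
  have b0 : (0.903 : ℝ) ≤ U 0 ∧ U 0 ≤ 0.915 :=
    step_pos e0 U0_pos b1.1 b1.2 (by norm_num) (by norm_num) (by norm_num)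
  have c6 : (-0.9786 : ℝ) ≤ U 6 ∧ U 6 ≤ -0.9754 :=
    step_neg e6 U6_neg b0.1 b0.2 (by norm_num) (by norm_num) (by norm_num)
  have c5 : (0.103 : ℝ) ≤ U 5 ∧ U 5 ≤ 0.111 :=
    step_pos e5 U5_pos c6.1 c6.2 (by norm_num) (by norm_num) (by norm_num)
  have c4 : (0.7426 : ℝ) ≤ U 4 ∧ U 4 ≤ 0.7454 :=
    step_pos e4 U4_pos c5.1 c5.2 (by norm_num) (by norm_num) (by norm_num)
  have c3 : (-0.9342 : ℝ) ≤ U 3 ∧ U 3 ≤ -0.9334 :=
    step_neg e3 U3_neg c4.1 c4.2 (by norm_num) (by norm_num) (by norm_num)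
  have c2 : (-0.1826 : ℝ) ≤ U 2 ∧ U 2 ≤ -0.1813 :=
    step_neg e2 U2_neg c3.1 c3.2 (by norm_num) (by norm_num) (by norm_num)
  have c1 : (0.6392 : ℝ) ≤ U 1 ∧ U 1 ≤ 0.64 :=
    step_pos e1 U1_pos c2.1 c2.2 (by norm_num) (by norm_num) (by norm_num)
  have c0 : (0.9053 : ℝ) ≤ U 0 ∧ U 0 ≤ 0.9056 :=
    step_pos e0 U0_pos c1.1 c1.2 (by norm_num) (by norm_num) (by norm_num)
  refine ⟨?_, ?_, ?_, ?_, ?_, ?_, ?_⟩ <;> constructor <;> linarith [c0.1, c0.2, c1.1, c1.2, c2.1,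
    c2.2, c3.1, c3.2, c4.1, c4.2, c5.1, c5.2, c6.1, c6.2]

/-- one step of the contraction -/
theorem contr {x y c d m e : ℝ} (h : 2 * x ^ 2 - 1 = y) (hm : m ≤ |x + c|) (hm0 : 0 < m)
    (he : |2 * c ^ 2 - 1 - d| ≤ e) : |x - c| ≤ (|y - d| + e) / (2 * m) := by
  rw [le_div_iff₀ (by positivity)]
  have h1 : |x - c| * (2 * m) ≤ |x - c| * (2 * |x + c|) := by gcongr
  have h2 : |x - c| * (2 * |x + c|) = |(y - d) - (2 * c ^ 2 - 1 - d)| := by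
    rw [← h]
    have : (2 * x ^ 2 - 1 - d) - (2 * c ^ 2 - 1 - d) = (x - c) * (2 * (x + c)) := by ring
    rw [this, abs_mul, abs_mul, abs_two]
  have h3 : |(y - d) - (2 * c ^ 2 - 1 - d)| ≤ |y - d| + |2 * c ^ 2 - 1 - d| := abs_sub _ _
  linarith

/-- fine enclosures -/
theorem fine : |U 0 - 1043910744314216311 / 2 ^ 60| ≤ 32 / 2 ^ 60 ∧
    |U 1 - 737492782472084991 / 2 ^ 60| ≤ 32 / 2 ^ 60 ∧
    |U 2 - -209413031523261507 / 2 ^ 60| ≤ 32 / 2 ^ 60 ∧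
    |U 3 - -1076847257406961624 / 2 ^ 60| ≤ 32 / 2 ^ 60 ∧
    |U 4 - 858663865518286569 / 2 ^ 60| ≤ 32 / 2 ^ 60 ∧
    |U 5 - 126096418123687926 / 2 ^ 60| ≤ 32 / 2 ^ 60 ∧
    |U 6 - -1125338869362228079 / 2 ^ 60| ≤ 32 / 2 ^ 60 := by
  obtain ⟨h0, h1, h2, h3, h4, h5, h6⟩ := coarse
  have e0 := U_succ 0
  have e1 := U_succ 1
  have e2 := U_succ 2
  have e3 := U_succ 3
  have e4 := U_succ 4
  have e5 := U_succ 5
  have e6 : 2 * U 6 ^ 2 - 1 = U 0 := by rw [U_succ 6]; exact U_add_seven 0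
  norm_num at e0 e1 e2 e3 e4 e5
  have f0 := contr (c := 1043910744314216311 / 2 ^ 60) (d := 737492782472084991 / 2 ^ 60)
    (m := 1.8) (e := 2 / 2 ^ 60) e0 (by rw [abs_of_pos (by linarith [h0.1])]; linarith [h0.1])
    (by norm_num) (by rw [abs_le]; constructor <;> norm_num)
  have f1 := contr (c := 737492782472084991 / 2 ^ 60) (d := -209413031523261507 / 2 ^ 60)
    (m := 1.26) (e := 2 / 2 ^ 60) e1 (by rw [abs_of_pos (by linarith [h1.1])]; linarith [h1.1])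
    (by norm_num) (by rw [abs_le]; constructor <;> norm_num)
  have f2 := contr (c := -209413031523261507 / 2 ^ 60) (d := -1076847257406961624 / 2 ^ 60)
    (m := 0.35) (e := 2 / 2 ^ 60) e2 (by rw [abs_of_neg (by linarith [h2.2])]; linarith [h2.2])
    (by norm_num) (by rw [abs_le]; constructor <;> norm_num)
  have f3 := contr (c := -1076847257406961624 / 2 ^ 60) (d := 858663865518286569 / 2 ^ 60)
    (m := 1.86) (e := 2 / 2 ^ 60) e3 (by rw [abs_of_neg (by linarith [h3.2])]; linarith [h3.2])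
    (by norm_num) (by rw [abs_le]; constructor <;> norm_num)
  have f4 := contr (c := 858663865518286569 / 2 ^ 60) (d := 126096418123687926 / 2 ^ 60)
    (m := 1.48) (e := 2 / 2 ^ 60) e4 (by rw [abs_of_pos (by linarith [h4.1])]; linarith [h4.1])
    (by norm_num) (by rw [abs_le]; constructor <;> norm_num)
  have f5 := contr (c := 126096418123687926 / 2 ^ 60) (d := -1125338869362228079 / 2 ^ 60)
    (m := 0.2) (e := 2 / 2 ^ 60) e5 (by rw [abs_of_pos (by linarith [h5.1])]; linarith [h5.1])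
    (by norm_num) (by rw [abs_le]; constructor <;> norm_num)
  have f6 := contr (c := -1125338869362228079 / 2 ^ 60) (d := 1043910744314216311 / 2 ^ 60)
    (m := 1.94) (e := 2 / 2 ^ 60) e6 (by rw [abs_of_neg (by linarith [h6.2])]; linarith [h6.2])
    (by norm_num) (by rw [abs_le]; constructor <;> norm_num)
  norm_num at f0 f1 f2 f3 f4 f5 f6 ⊢
  refine ⟨?_, ?_, ?_, ?_, ?_, ?_, ?_⟩ <;> linarith

end Pool.Agent.X153.FL
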