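import Pool.Agent.X153.FL.CertP
import Pool.Agent.X153.FL.Orb
import Pool.Agent.X153.FL.Ch0
import Pool.Agent.X153.FL.Ch1
import Pool.Agent.X153.FL.Ch2
import Pool.Agent.X153.FL.Ch3
import Pool.Agent.X153.FL.Ch4
import Pool.Agent.X153.FL.Ch5
import Pool.Agent.X153.FL.Ch6
import Pool.Agent.X153.FL.Ch7

set_option autoImplicit false

namespace Pool.Agent.X153.FL

/-- the polynomial -/
noncomputable def pp (u : ℝ) : ℝ := -10 * u + 84 * u ^ 3 - 96 * u ^ 5

theorem ev_pL (u : ℝ) : ev pL u = pp u := by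
  simp only [pL, ev, pp]; push_cast; ring

theorem ev_PL (u : ℝ) : ev PL u = 2 ^ 50 * pp u + ev GLs u - ev GLs (2 * u ^ 2 - 1) := by
  have h := ev_allz _ PL_allz u
  simp only [ev_add, ev_smul, ev_comp, ev_pL] at h
  push_cast at h
  linarith

theorem ev1_PL (u : ℝ) : ev PL1 u = ev1 PL u := by
  have h := ev_allz _ PL1_allz u
  simp only [ev_add, ev_smul, ev_der] at h
  push_cast at h
  linarith

theorem ev2_PL (u : ℝ) : ev PL2 u = ev2 PL u := by
  have h := ev_allz _ PL2_allz u
  simp only [ev_add, ev_smul, ev_der] at h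
  push_cast at h
  have h2 : ev1 PL1 u = ev2 PL u := by
    have e : ev PL1 = ev1 PL := funext ev1_PL
    have a := hasDerivAt_ev PL1 u
    rw [e] at a
    exact a.unique (hasDerivAt_ev1 PL u)
  linarith

theorem good_all (u : ℝ) (h1 : -1 ≤ u) (h2 : u ≤ 1) : Good u := by
  have g0 := cover_sound _ _ _ ch0_ok ch0_al u
  have g1 := cover_sound _ _ _ ch1_ok ch1_al u
  have g2 := cover_sound _ _ _ ch2_ok ch2_al u
  have g3 := cover_sound _ _ _ ch3_ok ch3_al u
  have g4 := cover_sound _ _ _ ch4_ok ch4_al u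
  have g5 := cover_sound _ _ _ ch5_ok ch5_al u
  have g6 := cover_sound _ _ _ ch6_ok ch6_al u
  have g7 := cover_sound _ _ _ ch7_ok ch7_al u
  push_cast at g0 g1 g2 g3 g4 g5 g6 g7
  rcases lt_or_ge u (-980224 / 2 ^ 20) with h | h
  · exact g0 (by norm_num at h ⊢; linarith) h
  rcases lt_or_ge u (-688128 / 2 ^ 20) with h' | h'
  · exact g1 h h'
  clear h
  rcases lt_or_ge u (-188416 / 2 ^ 20) with h | h
  · exact g2 h' h
  clear h'
  rcases lt_or_ge u (118784 / 2 ^ 20) with h' | h'
  · exact g3 h h'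
  clear h
  rcases lt_or_ge u (622592 / 2 ^ 20) with h | h
  · exact g4 h' h
  clear h'
  rcases lt_or_ge u (720896 / 2 ^ 20) with h' | h'
  · exact g5 h h'
  clear h
  rcases lt_or_ge u (851968 / 2 ^ 20) with h | h
  · exact g6 h' h
  clear h'
  exact g7 h (by norm_num; linarith)

/-- common value -/
noncomputable def BB : ℝ := 5086181506550447

theorem val_bd (C : ℤ) (hC : C ∈ CC) (v : ℝ) (hv : |v - (C : ℝ) / 2 ^ 60| ≤ 32 / 2 ^ 60) :
    |ev PL v - BB| ≤ 8 ∧ |ev1 PL v| ≤ 2048 := by
  have h1 := List.all_eq_true.1 cells_hi C hC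
  have h2 := List.all_eq_true.1 cells_lo C hC
  have h3 := List.all_eq_true.1 cells_d C hC
  have h4 := List.all_eq_true.1 cells_d' C hC
  have hv' : |v - (C : ℝ) / ((2 ^ 60 : ℤ) : ℝ)| ≤ ((32 : ℤ) : ℝ) / ((2 ^ 60 : ℤ) : ℝ) := by
    norm_num at hv ⊢; exact hv
  have k1 := cellH_sound _ _ _ _ _ (by norm_num) (by norm_num) h1 v hv'
  have k2 := cellH_sound _ _ _ _ _ (by norm_num) (by norm_num) h2 v hv'
  have k3 := cellH_sound _ _ _ _ _ (by norm_num) (by norm_num) h3 v hv'
  have k4 := cellH_sound _ _ _ _ _ (by norm_num) (by norm_num) h4 v hv'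
  rw [ev_smul] at k2 k4
  rw [ev1_PL] at k3 k4
  push_cast at k1 k2 k3 k4
  unfold BB
  constructor <;> rw [abs_le] <;> constructor <;> linarith

theorem dd_bd (A : ℤ) (hA : A ∈ AA) (v : ℝ) (hv : |v - (A : ℝ) / 2 ^ 20| ≤ 1030 / 2 ^ 20) :
    ev2 PL v ≤ -(29 * 2 ^ 50) := by
  have h1 := List.all_eq_true.1 cells_dd A hA
  have hv' : |v - (A : ℝ) / ((2 ^ 20 : ℤ) : ℝ)| ≤ ((1030 : ℤ) : ℝ) / ((2 ^ 20 : ℤ) : ℝ) := by
    norm_num at hv ⊢; exact hv
  have k1 := cellH_sound _ _ _ _ _ (by norm_num) (by norm_num) h1 v hv'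
  rw [ev2_PL] at k1
  norm_num at k1 ⊢
  exact k1

/-- second order Taylor bound -/
theorem taylor (f f1 f2 : ℝ → ℝ) (hf : ∀ u, HasDerivAt f (f1 u) u)
    (hf1 : ∀ u, HasDerivAt f1 (f2 u) u) (a b c v w : ℝ) (hv : v ∈ Set.Icc a b)
    (hw : w ∈ Set.Icc a b) (h2 : ∀ u ∈ Set.Icc a b, f2 u ≤ -c) :
    f w ≤ f v + f1 v * (w - v) - c / 2 * (w - v) ^ 2 := by
  have key : ∀ u ∈ Set.Icc a b, 0 ≤ (v - u) * (f1 u - f1 v + c * (u - v)) := by
    intro u hu
    -- `f1 + c x` is antitone
    have hanti : AntitoneOn (fun x => f1 x + c * x) (Set.Icc a b) := by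
      apply antitoneOn_of_deriv_nonpos (convex_Icc a b)
      · exact (continuous_iff_continuousAt.2 fun x =>
          ((hf1 x).add ((hasDerivAt_id x).const_mul c)).continuousAt).continuousOn
      · intro x _
        exact ((hf1 x).add ((hasDerivAt_id x).const_mul c)).differentiableAt.differentiableWithinAt
      · intro x hx
        have : deriv (fun x => f1 x + c * x) x = f2 x + c * 1 :=
          ((hf1 x).add ((hasDerivAt_id x).const_mul c)).deriv
        rw [this]
        have := h2 x (interior_subset hx)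
        linarith
    rcases le_total u v with h | h
    · have := hanti hu hv h
      simp only at this
      nlinarith
    · have := hanti hv hu h
      simp only at this
      nlinarith
  -- `ψ u = f u - f v - f1 v (u - v) + c / 2 (u - v) ^ 2`
  have hψ : ∀ u, HasDerivAt (fun x => f x - f1 v * (x - v) + c / 2 * (x - v) ^ 2)
      (f1 u - f1 v + c * (u - v)) u := by
    intro u
    have h1 := (hf u).sub (((hasDerivAt_id u).sub_const v).const_mul (f1 v))
    have h3 := (((hasDerivAt_id u).sub_const v).pow 2).const_mul (c / 2)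
    have h4 := h1.add h3
    refine HasDerivAt.congr_deriv h4 ?_
    simp
    ring
  have hcont : Continuous (fun x => f x - f1 v * (x - v) + c / 2 * (x - v) ^ 2) :=
    continuous_iff_continuousAt.2 fun x => (hψ x).continuousAt
  have main : f w - f1 v * (w - v) + c / 2 * (w - v) ^ 2 ≤ f v := by
    rcases le_total w v with h | h
    · have hm : MonotoneOn (fun x => f x - f1 v * (x - v) + c / 2 * (x - v) ^ 2)
          (Set.Icc a v) := by
        apply monotoneOn_of_deriv_nonneg (convex_Icc a v) hcont.continuousOn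
        · intro x _; exact (hψ x).differentiableAt.differentiableWithinAt
        · intro x hx
          rw [(hψ x).deriv]
          rw [interior_Icc] at hx
          have := key x ⟨hx.1.le, hx.2.le.trans hv.2⟩
          have h5 : 0 < v - x := by linarith [hx.2]
          exact nonneg_of_mul_nonneg_right this h5 |> fun t => t
      have := hm ⟨hw.1, h⟩ ⟨hv.1, le_rfl⟩ h
      simpa using this
    · have hm : AntitoneOn (fun x => f x - f1 v * (x - v) + c / 2 * (x - v) ^ 2)
          (Set.Icc v b) := by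
        apply antitoneOn_of_deriv_nonpos (convex_Icc v b) hcont.continuousOn
        · intro x _; exact (hψ x).differentiableAt.differentiableWithinAt
        · intro x hx
          rw [(hψ x).deriv]
          rw [interior_Icc] at hx
          have := key x ⟨hv.1.trans hx.1.le, hx.2.le⟩
          have h5 : v - x < 0 := by linarith [hx.1]
          nlinarith
      have := hm ⟨le_rfl, hv.2⟩ ⟨h, hw.2⟩ h
      simpa using this
  linarith

end Pool.Agent.X153.FL
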