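import Mathlib

set_option autoImplicit false

namespace Pool.Agent.X153.FL

/-- value of an integer coefficient list -/
def ev : List ℤ → ℝ → ℝ
  | [], _ => 0
  | a :: as, u => a + u * ev as u

/-- first derivative -/
def ev1 : List ℤ → ℝ → ℝ
  | [], _ => 0
  | _ :: as, u => ev as u + u * ev1 as u

/-- second derivative -/
def ev2 : List ℤ → ℝ → ℝ
  | [], _ => 0
  | _ :: as, u => 2 * ev1 as u + u * ev2 as u

theorem hasDerivAt_ev (l : List ℤ) (u : ℝ) : HasDerivAt (ev l) (ev1 l u) u := by
  induction l with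
  | nil => simpa [ev, ev1] using hasDerivAt_const u (0 : ℝ)
  | cons a as ih =>
    have h := ((hasDerivAt_id u).mul ih).const_add (a : ℝ)
    simp only [id, one_mul] at h
    exact h

theorem hasDerivAt_ev1 (l : List ℤ) (u : ℝ) : HasDerivAt (ev1 l) (ev2 l u) u := by
  induction l with
  | nil => simpa [ev1, ev2] using hasDerivAt_const u (0 : ℝ)
  | cons a as ih =>
    have h := (hasDerivAt_ev as u).add ((hasDerivAt_id u).mul ih)
    simp only [id, one_mul] at h
    have e : ev1 as u + (ev1 as u + u * ev2 as u) = ev2 (a :: as) u := by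
      simp only [ev2]; ring
    rw [← e]
    exact h

/-- sum of two lists -/
def add : List ℤ → List ℤ → List ℤ
  | [], m => m
  | l, [] => l
  | a :: as, b :: bs => (a + b) :: add as bs

theorem ev_add (l m : List ℤ) (u : ℝ) : ev (add l m) u = ev l u + ev m u := by
  induction l generalizing m with
  | nil => simp [add, ev]
  | cons a as ih =>
    cases m with
    | nil => simp [add, ev]
    | cons b bs => simp only [add, ev, ih]; push_cast; ring

/-- scalar multiple -/
def smul (c : ℤ) : List ℤ → List ℤ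
  | [] => []
  | a :: as => (c * a) :: smul c as

theorem ev_smul (c : ℤ) (l : List ℤ) (u : ℝ) : ev (smul c l) u = c * ev l u := by
  induction l with
  | nil => simp [smul, ev]
  | cons a as ih => simp only [smul, ev, ih]; push_cast; ring

/-- derivative list -/
def der : List ℤ → List ℤ
  | [] => []
  | _ :: as => add as (0 :: der as)

theorem ev_der (l : List ℤ) (u : ℝ) : ev (der l) u = ev1 l u := by
  induction l with
  | nil => simp [der, ev, ev1]
  | cons a as ih => simp only [der, ev_add, ev, ev1, ih]; push_cast; ring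

theorem ev1_add (l m : List ℤ) (u : ℝ) : ev1 (add l m) u = ev1 l u + ev1 m u := by
  induction l generalizing m with
  | nil => simp [add, ev1]
  | cons a as ih =>
    cases m with
    | nil => simp [add, ev1]
    | cons b bs => simp only [add, ev1, ih, ev_add]; ring

theorem ev1_der (l : List ℤ) (u : ℝ) : ev1 (der l) u = ev2 l u := by
  induction l with
  | nil => simp [der, ev1, ev2]
  | cons a as ih => simp only [der, ev1_add, ev1, ev2, ih, ev_der]; ring

theorem ev_der_der (l : List ℤ) (u : ℝ) : ev (der (der l)) u = ev2 l u := by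
  rw [ev_der, ev1_der]

/-- composition with `2 u ^ 2 - 1` -/
def comp : List ℤ → List ℤ
  | [] => []
  | a :: as => add (a :: []) (add (smul (-1) (comp as)) (0 :: 0 :: smul 2 (comp as)))

theorem ev_comp (l : List ℤ) (u : ℝ) : ev (comp l) u = ev l (2 * u ^ 2 - 1) := by
  induction l with
  | nil => simp [comp, ev]
  | cons a as ih => simp only [comp, ev_add, ev, ev_smul, ih]; push_cast; ring

/-- `2 ^ (q * length) * l ((C + τ) / 2 ^ q)` as a list in `τ` -/
def sh (C Q : ℤ) : List ℤ → List ℤ × ℤ
  | [] => ([], 1)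
  | a :: as =>
    let r := sh C Q as
    (add ((a * (Q * r.2)) :: r.1) (smul C r.1), Q * r.2)

theorem sh_snd (C Q : ℤ) (l : List ℤ) : (sh C Q l).2 = Q ^ l.length := by
  induction l with
  | nil => simp [sh]
  | cons a as ih => simp only [sh, ih, List.length_cons]; ring

theorem ev_sh (C Q : ℤ) (hQ : Q ≠ 0) (l : List ℤ) (τ : ℝ) :
    ev (sh C Q l).1 τ = ((sh C Q l).2 : ℝ) * ev l ((C + τ) / Q) := by
  induction l with
  | nil => simp [sh, ev]
  | cons a as ih =>
    have hQ' : (Q : ℝ) ≠ 0 := by exact_mod_cast hQ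
    simp only [sh, ev_add, ev, ev_smul, ih]
    push_cast
    field_simp
    ring

/-- sum of absolute values -/
def sabs : List ℤ → ℤ
  | [] => 0
  | a :: as => |a| + sabs as

theorem sabs_nonneg (l : List ℤ) : 0 ≤ sabs l := by
  induction l with
  | nil => simp [sabs]
  | cons a as ih => simp only [sabs]; positivity

theorem abs_ev_le (l : List ℤ) (τ : ℝ) (h : |τ| ≤ 1) : |ev l τ| ≤ sabs l := by
  induction l with
  | nil => simp [ev, sabs]
  | cons a as ih =>
    simp only [ev, sabs]
    push_cast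
    calc |(a : ℝ) + τ * ev as τ| ≤ |(a : ℝ)| + |τ * ev as τ| := abs_add_le _ _
      _ = |(a : ℝ)| + |τ| * |ev as τ| := by rw [abs_mul]
      _ ≤ |(a : ℝ)| + 1 * sabs as := by
        gcongr
      _ = _ := by ring

/-- upper bound for `ev l τ`, `|τ| ≤ 1` -/
def ub : List ℤ → ℤ
  | [] => 0
  | a :: as => a + sabs as

theorem ev_le_ub (l : List ℤ) (τ : ℝ) (h : |τ| ≤ 1) : ev l τ ≤ ub l := by
  cases l with
  | nil => simp [ev, ub]
  | cons a as =>
    simp only [ev, ub]
    push_cast
    have h1 := abs_ev_le as τ h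
    have h2 : τ * ev as τ ≤ sabs as := by
      calc τ * ev as τ ≤ |τ * ev as τ| := le_abs_self _
        _ = |τ| * |ev as τ| := abs_mul _ _
        _ ≤ 1 * sabs as := by gcongr
        _ = _ := one_mul _
    linarith

/-- `l ≤ thr` on the cell with centre `C / Q` and half-width `1 / Q` -/
def cell (l : List ℤ) (thr C Q : ℤ) : Bool :=
  decide (ub (sh C Q l).1 ≤ thr * (sh C Q l).2)

theorem cell_sound (l : List ℤ) (thr C Q : ℤ) (hQ : 0 < Q) (h : cell l thr C Q = true)
    (u : ℝ) (hu : |u - C / Q| ≤ 1 / Q) : ev l u ≤ thr := by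
  have hQ' : (0 : ℝ) < Q := by exact_mod_cast hQ
  have h1 : ub (sh C Q l).1 ≤ thr * (sh C Q l).2 := by simpa [cell] using h
  have hτ : |u * Q - C| ≤ 1 := by
    have : u * Q - C = (u - C / Q) * Q := by field_simp
    rw [this, abs_mul, abs_of_pos hQ']
    calc |u - C / Q| * Q ≤ (1 / Q) * Q := by gcongr
      _ = 1 := by field_simp
  have h2 := ev_le_ub (sh C Q l).1 (u * Q - C) hτ
  rw [ev_sh C Q hQ.ne' l] at h2
  have h3 : ((C : ℝ) + (u * Q - C)) / Q = u := by field_simp; ring
  rw [h3] at h2
  have h4 : (0 : ℝ) < ((sh C Q l).2 : ℝ) := by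
    rw [sh_snd]; push_cast; positivity
  have h5 : (ub (sh C Q l).1 : ℝ) ≤ thr * (sh C Q l).2 := by exact_mod_cast h1
  have h6 : ((sh C Q l).2 : ℝ) * ev l u ≤ ((sh C Q l).2 : ℝ) * thr := by linarith
  exact le_of_mul_le_mul_left h6 h4

/-- is the cell `[L / Q, (L + 2) / Q]` inside an interval `[c / R, d / R]` of the list -/
def inI (I : List (ℤ × ℤ)) (R L Q : ℤ) : Bool :=
  I.any fun p => decide (p.1 * Q ≤ L * R) && decide ((L + 2) * R ≤ p.2 * Q)

/-- recursive subdivision -/
def go (l : List ℤ) (thr R : ℤ) (I : List (ℤ × ℤ)) : ℕ → ℤ → ℤ → Bool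
  | 0, _, _ => false
  | n + 1, L, Q =>
    inI I R L Q || (cell l thr (L + 1) Q ||
      (go l thr R I n (2 * L) (2 * Q) && go l thr R I n (2 * L + 2) (2 * Q)))

theorem go_sound (l : List ℤ) (thr R : ℤ) (hR : 0 < R) (I : List (ℤ × ℤ)) (n : ℕ) :
    ∀ (L Q : ℤ), 0 < Q → go l thr R I n L Q = true → ∀ u : ℝ, (L : ℝ) / Q ≤ u →
      u ≤ ((L : ℝ) + 2) / Q →
      (∃ p ∈ I, (p.1 : ℝ) / R ≤ u ∧ u ≤ (p.2 : ℝ) / R) ∨ ev l u ≤ thr := by
  have hR' : (0 : ℝ) < R := by exact_mod_cast hR
  induction n with
  | zero => intro L Q _ h; simp [go] at h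
  | succ n ih =>
    intro L Q hQ h u hu1 hu2
    have hQ' : (0 : ℝ) < Q := by exact_mod_cast hQ
    simp only [go, Bool.or_eq_true, Bool.and_eq_true] at h
    rcases h with h | h | ⟨h1, h2⟩
    · left
      simp only [inI, List.any_eq_true, Bool.and_eq_true, decide_eq_true_eq] at h
      obtain ⟨p, hp, h1, h2⟩ := h
      refine ⟨p, hp, ?_, ?_⟩
      · have h1' : (p.1 : ℝ) * Q ≤ L * R := by exact_mod_cast h1
        refine le_trans ?_ hu1
        rw [div_le_div_iff₀ hR' hQ']
        exact h1'
      · have h2' : ((L : ℝ) + 2) * R ≤ p.2 * Q := by exact_mod_cast h2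
        refine le_trans hu2 ?_
        rw [div_le_div_iff₀ hQ' hR']
        exact h2'
    · right
      refine cell_sound l thr (L + 1) Q hQ h u ?_
      push_cast
      rw [abs_le]
      rw [div_le_iff₀ hQ'] at hu1
      rw [le_div_iff₀ hQ'] at hu2
      constructor
      · rw [neg_le_sub_iff_le_add, ← sub_le_iff_le_add]
        have : (((L : ℝ) + 1) / Q - 1 / Q) = L / Q := by field_simp; ring
        rw [this, div_le_iff₀ hQ']; exact hu1
      · rw [sub_le_iff_le_add]
        have : (1 / (Q : ℝ) + ((L : ℝ) + 1) / Q) = (L + 2) / Q := by field_simp; ring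
        rw [this, le_div_iff₀ hQ']; exact hu2
    · rcases le_total u (((L : ℝ) + 1) / Q) with h | h
      · refine ih (2 * L) (2 * Q) (by positivity) h1 u ?_ ?_
        · push_cast
          rw [mul_div_mul_left _ _ (by norm_num)]; exact hu1
        · push_cast
          have : (2 * (L : ℝ) + 2) / (2 * Q) = (L + 1) / Q := by field_simp
          rw [this]; exact h
      · refine ih (2 * L + 2) (2 * Q) (by positivity) h2 u ?_ ?_
        · push_cast
          have : (2 * (L : ℝ) + 2) / (2 * Q) = (L + 1) / Q := by field_simp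
          rw [this]; exact h
        · push_cast
          have : (2 * (L : ℝ) + 2 + 2) / (2 * Q) = (L + 2) / Q := by field_simp; ring
          rw [this]; exact hu2

end Pool.Agent.X153.FL
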