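import Pool.Agent.X153.FL.Loc

set_option autoImplicit false

open Finset

namespace Pool.Agent.X153.FL

theorem fine' (i : ℕ) (hi : i < 7) : ∃ C ∈ CC, |U i - (C : ℝ) / 2 ^ 60| ≤ 32 / 2 ^ 60 := by
  obtain ⟨h0, h1, h2, h3, h4, h5, h6⟩ := fine
  interval_cases i
  · exact ⟨1043910744314216311, by decide, by norm_num at h0 ⊢; exact h0⟩
  · exact ⟨737492782472084991, by decide, by norm_num at h1 ⊢; exact h1⟩
  · exact ⟨-209413031523261507, by decide, by norm_num at h2 ⊢; exact h2⟩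
  · exact ⟨-1076847257406961624, by decide, by norm_num at h3 ⊢; exact h3⟩
  · exact ⟨858663865518286569, by decide, by norm_num at h4 ⊢; exact h4⟩
  · exact ⟨126096418123687926, by decide, by norm_num at h5 ⊢; exact h5⟩
  · exact ⟨-1125338869362228079, by decide, by norm_num at h6 ⊢; exact h6⟩

/-- the mean value, scaled -/
noncomputable def bN : ℝ := (∑ i ∈ range 7, ev PL (U i)) / 7

noncomputable def ee (i : ℕ) : ℝ := bN - ev PL (U i)

theorem val7 (i : ℕ) (hi : i < 7) : |ev PL (U i) - BB| ≤ 8 ∧ |ev1 PL (U i)| ≤ 2048 := by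
  obtain ⟨C, hC, h⟩ := fine' i hi
  exact val_bd C hC _ h

theorem bN_bd : |bN - BB| ≤ 8 := by
  have h0 := abs_le.1 (val7 0 (by norm_num)).1
  have h1 := abs_le.1 (val7 1 (by norm_num)).1
  have h2 := abs_le.1 (val7 2 (by norm_num)).1
  have h3 := abs_le.1 (val7 3 (by norm_num)).1
  have h4 := abs_le.1 (val7 4 (by norm_num)).1
  have h5 := abs_le.1 (val7 5 (by norm_num)).1
  have h6 := abs_le.1 (val7 6 (by norm_num)).1
  unfold bN
  simp only [sum_range_succ, sum_range_zero, zero_add]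
  rw [abs_le]
  constructor <;> linarith [h0.1, h0.2, h1.1, h1.2, h2.1, h2.2, h3.1, h3.2, h4.1, h4.2, h5.1, h5.2,
    h6.1, h6.2]

theorem ee_bd (i : ℕ) (hi : i < 7) : |ee i| ≤ 16 := by
  have h1 := abs_le.1 bN_bd
  have h2 := abs_le.1 (val7 i hi).1
  unfold ee
  rw [abs_le]
  constructor <;> linarith [h1.1, h1.2, h2.1, h2.2]

theorem ee_sum : ∑ i ∈ range 7, ee i = 0 := by
  unfold ee bN
  rw [sum_sub_distrib, sum_const, card_range, nsmul_eq_mul]
  push_cast
  ring

/-- constants -/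
noncomputable def al (n : ℕ) : ℝ := -∑ i ∈ range n, ee i

theorem al_succ (n : ℕ) : al n - al (n + 1) = ee n := by
  unfold al; rw [sum_range_succ]; ring

theorem al_seven : al 7 = al 0 := by
  unfold al; rw [ee_sum]; simp

theorem al_bd (n : ℕ) (hn : n ≤ 7) : |al n| ≤ 112 := by
  unfold al
  rw [abs_neg]
  calc |∑ i ∈ range n, ee i| ≤ ∑ i ∈ range n, |ee i| := abs_sum_le_sum_abs _ _
    _ ≤ ∑ i ∈ range n, (16 : ℝ) := by
      apply sum_le_sum; intro i hi
      exact ee_bd i (lt_of_lt_of_le (mem_range.1 hi) hn)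
    _ = n * 16 := by simp
    _ ≤ 7 * 16 := by gcongr; exact_mod_cast hn
    _ = 112 := by norm_num

/-- slopes -/
noncomputable def SS (t : ℝ) : ℕ → ℝ
  | 0 => t
  | n + 1 => (SS t n + ev1 PL (U n)) / (4 * U n)

noncomputable def Lam : ℕ → ℝ
  | 0 => 1
  | n + 1 => Lam n / (4 * U n)

theorem SS_affine (t : ℝ) (n : ℕ) : SS t n = SS 0 n + t * Lam n := by
  induction n with
  | zero => simp [SS, Lam]
  | succ n ih => simp only [SS, Lam]; rw [ih]; ring

theorem Lam_neg : Lam 7 < 0 := by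
  have h0 : 0 < 4 * U 0 := by linarith [U0_pos]
  have h1 : 0 < 4 * U 1 := by linarith [U1_pos]
  have h2 : 4 * U 2 < 0 := by linarith [U2_neg]
  have h3 : 4 * U 3 < 0 := by linarith [U3_neg]
  have h4 : 0 < 4 * U 4 := by linarith [U4_pos]
  have h5 : 0 < 4 * U 5 := by linarith [U5_pos]
  have h6 : 4 * U 6 < 0 := by linarith [U6_neg]
  have l1 : 0 < Lam 1 := by simp only [Lam]; positivity
  have l2 : 0 < Lam 2 := div_pos l1 h1
  have l3 : Lam 3 < 0 := div_neg_of_pos_of_neg l2 h2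
  have l4 : 0 < Lam 4 := div_pos_of_neg_of_neg l3 h3
  have l5 : 0 < Lam 5 := div_pos l4 h4
  have l6 : 0 < Lam 6 := div_pos l5 h5
  exact div_neg_of_pos_of_neg l6 h6

/-- one step of the bound of slopes -/
theorem slope_step {s d x m B C : ℝ} (hs : |s| ≤ B) (hd : |d| ≤ 2048) (hm : m ≤ |4 * x|)
    (hm0 : 0 < m) (hB : B + 2048 ≤ C * m) : |(s + d) / (4 * x)| ≤ C := by
  rw [abs_div, div_le_iff₀ (lt_of_lt_of_le hm0 hm)]
  have h1 : |s + d| ≤ |s| + |d| := abs_add_le _ _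
  have hC : 0 ≤ C := by
    have : 0 ≤ |s| := abs_nonneg _
    by_contra hc
    push Not at hc
    nlinarith
  have h2 : C * m ≤ C * |4 * x| := by gcongr
  linarith

theorem slopes : ∃ s : ℕ → ℝ, (∀ n, n < 7 → s n - 4 * U n * s (n + 1) = -ev1 PL (U n)) ∧
    s 7 = s 0 ∧ ∀ n, n ≤ 7 → |s n| ≤ 8500 := by
  obtain ⟨c0, c1, c2, c3, c4, c5, c6⟩ := coarse
  have d0 := (val7 0 (by norm_num)).2
  have d1 := (val7 1 (by norm_num)).2
  have d2 := (val7 2 (by norm_num)).2
  have d3 := (val7 3 (by norm_num)).2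
  have d4 := (val7 4 (by norm_num)).2
  have d5 := (val7 5 (by norm_num)).2
  have d6 := (val7 6 (by norm_num)).2
  have m0 : (3.6 : ℝ) ≤ |4 * U 0| := by rw [abs_of_pos (by linarith)]; linarith
  have m1 : (2.52 : ℝ) ≤ |4 * U 1| := by rw [abs_of_pos (by linarith)]; linarith
  have m2 : (0.68 : ℝ) ≤ |4 * U 2| := by rw [abs_of_neg (by linarith)]; linarith
  have m3 : (3.72 : ℝ) ≤ |4 * U 3| := by rw [abs_of_neg (by linarith)]; linarith
  have m4 : (2.96 : ℝ) ≤ |4 * U 4| := by rw [abs_of_pos (by linarith)]; linarith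
  have m5 : (0.4 : ℝ) ≤ |4 * U 5| := by rw [abs_of_pos (by linarith)]; linarith
  have m6 : (3.88 : ℝ) ≤ |4 * U 6| := by rw [abs_of_neg (by linarith)]; linarith
  -- bounds for a general start value
  have chain : ∀ t B0 : ℝ, |t| ≤ B0 → B0 ≤ 2700 → 0 ≤ B0 →
      |SS t 1| ≤ 1320 ∧ |SS t 2| ≤ 1340 ∧ |SS t 3| ≤ 4990 ∧ |SS t 4| ≤ 1895 ∧ |SS t 5| ≤ 1340 ∧
      |SS t 6| ≤ 8475 ∧ |SS t 7| ≤ 2713 := by
    intro t B0 ht hB _
    have s1 : |SS t 1| ≤ 1320 := slope_step (s := t) (m := 3.6) (ht.trans hB) d0 m0 (by norm_num)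
      (by norm_num)
    have s2 : |SS t 2| ≤ 1340 := slope_step (m := 2.52) s1 d1 m1 (by norm_num) (by norm_num)
    have s3 : |SS t 3| ≤ 4990 := slope_step (m := 0.68) s2 d2 m2 (by norm_num) (by norm_num)
    have s4 : |SS t 4| ≤ 1895 := slope_step (m := 3.72) s3 d3 m3 (by norm_num) (by norm_num)
    have s5 : |SS t 5| ≤ 1340 := slope_step (m := 2.96) s4 d4 m4 (by norm_num) (by norm_num)
    have s6 : |SS t 6| ≤ 8475 := slope_step (m := 0.4) s5 d5 m5 (by norm_num) (by norm_num)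
    have s7 : |SS t 7| ≤ 2713 := slope_step (m := 3.88) s6 d6 m6 (by norm_num) (by norm_num)
    exact ⟨s1, s2, s3, s4, s5, s6, s7⟩
  have z1 : |SS 0 1| ≤ 570 := slope_step (s := 0) (B := 0) (m := 3.6) (by simp) d0 m0
    (by norm_num) (by norm_num)
  have z2 : |SS 0 2| ≤ 1040 := slope_step (m := 2.52) z1 d1 m1 (by norm_num) (by norm_num)
  have z3 : |SS 0 3| ≤ 4542 := slope_step (m := 0.68) z2 d2 m2 (by norm_num) (by norm_num)
  have z4 : |SS 0 4| ≤ 1772 := slope_step (m := 3.72) z3 d3 m3 (by norm_num) (by norm_num)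
  have z5 : |SS 0 5| ≤ 1291 := slope_step (m := 2.96) z4 d4 m4 (by norm_num) (by norm_num)
  have z6 : |SS 0 6| ≤ 8348 := slope_step (m := 0.4) z5 d5 m5 (by norm_num) (by norm_num)
  have z7 : |SS 0 7| ≤ 2690 := slope_step (m := 3.88) z6 d6 m6 (by norm_num) (by norm_num)
  have hL := Lam_neg
  have hL1 : 1 < 1 - Lam 7 := by linarith
  set t : ℝ := SS 0 7 / (1 - Lam 7) with ht
  have ht7 : SS t 7 = t := by
    rw [SS_affine, ht]
    field_simp
    ring
  have htb : |t| ≤ 2690 := by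
    rw [ht, abs_div, abs_of_pos (by linarith : (0 : ℝ) < 1 - Lam 7), div_le_iff₀ (by linarith)]
    nlinarith [abs_nonneg (SS 0 7)]
  obtain ⟨s1, s2, s3, s4, s5, s6, s7⟩ := chain t 2690 htb (by norm_num) (by norm_num)
  refine ⟨SS t, ?_, ht7, ?_⟩
  · intro n hn
    have hne : U n ≠ 0 := by
      interval_cases n
      · exact U0_pos.ne'
      · exact U1_pos.ne'
      · exact U2_neg.ne
      · exact U3_neg.ne
      · exact U4_pos.ne'
      · exact U5_pos.ne'
      · exact U6_neg.ne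
    simp only [SS]
    field_simp
    ring
  · intro n hn
    interval_cases n
    · exact htb.trans (by norm_num)
    · exact s1.trans (by norm_num)
    · exact s2.trans (by norm_num)
    · exact s3.trans (by norm_num)
    · exact s4.trans (by norm_num)
    · exact s5.trans (by norm_num)
    · exact s6.trans (by norm_num)
    · exact s7.trans (by norm_num)

end Pool.Agent.X153.FL
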