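import Pool.Agent.X153.FL.Sub

set_option autoImplicit false

open Finset

namespace Pool.Agent.X153.FL

/-- local correction -/
noncomputable def corr (s : ℕ → ℝ) (v : ℝ) : ℝ :=
  ∑ i ∈ range 7, if |v - U i| < 1 / 128 then al i + s i * (v - U i) else 0

theorem corr_measurable (s : ℕ → ℝ) : Measurable (corr s) := by
  unfold corr
  apply Finset.measurable_sum
  intro i _
  apply Measurable.ite
  · exact measurableSet_lt (by fun_prop) measurable_const
  · fun_prop
  · exact measurable_const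

theorem corr_bd (s : ℕ → ℝ) (hs : ∀ n, n ≤ 7 → |s n| ≤ 8500) (v : ℝ) : |corr s v| ≤ 1300 := by
  unfold corr
  calc |∑ i ∈ range 7, if |v - U i| < 1 / 128 then al i + s i * (v - U i) else 0|
      ≤ ∑ i ∈ range 7, |if |v - U i| < 1 / 128 then al i + s i * (v - U i) else 0| :=
        abs_sum_le_sum_abs _ _
    _ ≤ ∑ i ∈ range 7, (180 : ℝ) := by
      apply sum_le_sum
      intro i hi
      have hi' : i ≤ 7 := (mem_range.1 hi).le
      split_ifs with h
      · have h1 := al_bd i hi'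
        have h2 := hs i hi'
        calc |al i + s i * (v - U i)| ≤ |al i| + |s i * (v - U i)| := abs_add_le _ _
          _ = |al i| + |s i| * |v - U i| := by rw [abs_mul]
          _ ≤ 112 + 8500 * (1 / 128) := by gcongr
          _ ≤ 180 := by norm_num
      · simp
    _ = 7 * 180 := by simp
    _ ≤ 1300 := by norm_num

theorem U_sep (i j : ℕ) (hi : i < 7) (hj : j < 7) (hij : i ≠ j) : 1 / 64 ≤ |U i - U j| := by
  obtain ⟨c0, c1, c2, c3, c4, c5, c6⟩ := coarse
  wlog h : i < j generalizing i j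
  · rw [abs_sub_comm]
    exact this j i hj hi hij.symm (lt_of_le_of_ne (not_lt.1 h) hij.symm)
  rw [le_abs]
  interval_cases j <;> interval_cases i <;>
    first
      | exact absurd rfl hij
      | (left; linarith)
      | (right; linarith)

/-- near an orbit point the correction is the single term -/
theorem corr_eq (s : ℕ → ℝ) (i : ℕ) (hi : i < 7) (v : ℝ) (hv : |v - U i| < 1 / 128) :
    corr s v = al i + s i * (v - U i) := by
  unfold corr
  rw [Finset.sum_eq_single i]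
  · rw [if_pos hv]
  · intro j hj hji
    rw [if_neg]
    intro hcon
    have h1 := U_sep i j hi (mem_range.1 hj) hji.symm
    have h2 : |U i - U j| ≤ |v - U i| + |v - U j| := by
      have : U i - U j = (v - U j) - (v - U i) := by ring
      rw [this]
      have := abs_sub (v - U j) (v - U i)
      linarith
    linarith
  · intro h
    exact absurd (mem_range.2 hi) h

/-- the inequality near an orbit point -/
theorem near (s : ℕ → ℝ) (h1 : ∀ n, n < 7 → s n - 4 * U n * s (n + 1) = -ev1 PL (U n))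
    (h2 : s 7 = s 0) (h3 : ∀ n, n ≤ 7 → |s n| ≤ 8500) (i : ℕ) (hi : i < 7) (A : ℤ) (hA : A ∈ AA)
    (hAi : |U i - (A : ℝ) / 2 ^ 20| ≤ 1 / 2 ^ 20) (v : ℝ)
    (hv : |v - (A : ℝ) / 2 ^ 20| ≤ 1024 / 2 ^ 20) :
    ev PL v + corr s v - corr s (2 * v ^ 2 - 1) ≤ bN := by
  have hvi : |v - U i| ≤ 1025 / 2 ^ 20 := by
    have : v - U i = (v - (A : ℝ) / 2 ^ 20) - (U i - (A : ℝ) / 2 ^ 20) := by ring
    rw [this]
    have := abs_sub (v - (A : ℝ) / 2 ^ 20) (U i - (A : ℝ) / 2 ^ 20)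
    norm_num at *
    linarith
  have e1 := corr_eq s i hi v (lt_of_le_of_lt hvi (by norm_num))
  -- the image point
  have hT : |(2 * v ^ 2 - 1) - U (i + 1)| < 1 / 128 := by
    rw [← U_succ i]
    have h5 : (2 * v ^ 2 - 1) - (2 * U i ^ 2 - 1) = (v - U i) * (2 * ((v - U i) + 2 * U i)) := by
      ring
    rw [h5, abs_mul]
    have h6 : |2 * ((v - U i) + 2 * U i)| ≤ 5 := by
      have h7 := abs_le.1 (U_abs i)
      have h8 := abs_le.1 hvi
      norm_num at h8
      rw [abs_le]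
      constructor <;> linarith [h7.1, h7.2, h8.1, h8.2]
    calc |v - U i| * |2 * ((v - U i) + 2 * U i)| ≤ 1025 / 2 ^ 20 * 5 := by gcongr
      _ < 1 / 128 := by norm_num
  have e2 : corr s (2 * v ^ 2 - 1) = al (i + 1) + s (i + 1) * ((2 * v ^ 2 - 1) - U (i + 1)) := by
    rcases Nat.lt_or_ge (i + 1) 7 with h | h
    · exact corr_eq s (i + 1) h _ hT
    · have : i = 6 := by omega
      subst this
      have e7 : U (6 + 1) = U 0 := U_add_seven 0
      rw [e7] at hT ⊢
      rw [corr_eq s 0 (by norm_num) _ hT]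
      norm_num
      rw [al_seven, h2]
  have e3 : (2 * v ^ 2 - 1) - U (i + 1) = 4 * U i * (v - U i) + 2 * (v - U i) ^ 2 := by
    rw [← U_succ i]; ring
  have e4 := h1 i hi
  have e5 := al_succ i
  have hAu := abs_le.1 hAi
  have hAv := abs_le.1 hv
  have ht := taylor (ev PL) (ev1 PL) (ev2 PL) (hasDerivAt_ev PL) (hasDerivAt_ev1 PL)
    ((A : ℝ) / 2 ^ 20 - 1030 / 2 ^ 20) ((A : ℝ) / 2 ^ 20 + 1030 / 2 ^ 20) (29 * 2 ^ 50) (U i) v
    ⟨by norm_num at hAu ⊢; linarith [hAu.1], by norm_num at hAu ⊢; linarith [hAu.2]⟩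
    ⟨by norm_num at hAv ⊢; linarith [hAv.1], by norm_num at hAv ⊢; linarith [hAv.2]⟩
    (by
      intro u hu
      apply dd_bd A hA u
      rw [abs_le]
      constructor <;> linarith [hu.1, hu.2])
  have e6 : ee i = bN - ev PL (U i) := rfl
  have h9 := abs_le.1 (h3 (i + 1) (by omega))
  rw [e1, e2, e3]
  have e7 : (v - U i) ^ 2 * (2 * s (i + 1)) ≥ (v - U i) ^ 2 * (2 * (-8500)) := by
    apply mul_le_mul_of_nonneg_left _ (sq_nonneg _)
    linarith [h9.1]
  have e8 : 0 ≤ (v - U i) ^ 2 := sq_nonneg _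
  have e9 : al i - al (i + 1) = bN - ev PL (U i) := by rw [e5, e6]
  have e10 : s i * (v - U i) - s (i + 1) * (4 * U i * (v - U i) + 2 * (v - U i) ^ 2) =
      -ev1 PL (U i) * (v - U i) - (v - U i) ^ 2 * (2 * s (i + 1)) := by
    rw [← e4]; ring
  nlinarith

theorem A_near (A : ℤ) (hA : A ∈ AA) :
    ∃ i, i < 7 ∧ |U i - (A : ℝ) / 2 ^ 20| ≤ 1 / 2 ^ 20 := by
  obtain ⟨h0, h1, h2, h3, h4, h5, h6⟩ := fine
  simp only [AA, List.mem_cons, List.not_mem_nil, or_false] at hA
  rcases hA with rfl | rfl | rfl | rfl | rfl | rfl | rfl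
  · refine ⟨0, by norm_num, ?_⟩
    rw [abs_le] at h0 ⊢
    norm_num at h0 ⊢
    constructor <;> linarith [h0.1, h0.2]
  · refine ⟨1, by norm_num, ?_⟩
    rw [abs_le] at h1 ⊢
    norm_num at h1 ⊢
    constructor <;> linarith [h1.1, h1.2]
  · refine ⟨2, by norm_num, ?_⟩
    rw [abs_le] at h2 ⊢
    norm_num at h2 ⊢
    constructor <;> linarith [h2.1, h2.2]
  · refine ⟨3, by norm_num, ?_⟩
    rw [abs_le] at h3 ⊢
    norm_num at h3 ⊢
    constructor <;> linarith [h3.1, h3.2]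
  · refine ⟨4, by norm_num, ?_⟩
    rw [abs_le] at h4 ⊢
    norm_num at h4 ⊢
    constructor <;> linarith [h4.1, h4.2]
  · refine ⟨5, by norm_num, ?_⟩
    rw [abs_le] at h5 ⊢
    norm_num at h5 ⊢
    constructor <;> linarith [h5.1, h5.2]
  · refine ⟨6, by norm_num, ?_⟩
    rw [abs_le] at h6 ⊢
    norm_num at h6 ⊢
    constructor <;> linarith [h6.1, h6.2]

theorem corrected : ∃ s : ℕ → ℝ, (∀ n, n ≤ 7 → |s n| ≤ 8500) ∧ ∀ v : ℝ, -1 ≤ v → v ≤ 1 →
    ev PL v + corr s v - corr s (2 * v ^ 2 - 1) ≤ bN := by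
  obtain ⟨s, h1, h2, h3⟩ := slopes
  refine ⟨s, h3, fun v hv1 hv2 => ?_⟩
  rcases good_all v hv1 hv2 with ⟨A, hA, h⟩ | h
  · obtain ⟨i, hi, hAi⟩ := A_near A hA
    exact near s h1 h2 h3 i hi A hA hAi v h
  · have b1 := abs_le.1 (corr_bd s h3 v)
    have b2 := abs_le.1 (corr_bd s h3 (2 * v ^ 2 - 1))
    have b3 := abs_le.1 bN_bd
    unfold BB at b3
    linarith [b1.2, b2.1, b3.1]

theorem ev_continuous (l : List ℤ) : Continuous (ev l) :=
  continuous_iff_continuousAt.2 fun x => (hasDerivAt_ev l x).continuousAt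

/-- the mean value -/
theorem bN_eq : bN = 2 ^ 50 * ((∑ i ∈ range 7, pp (U i)) / 7) := by
  have h : ∑ i ∈ range 7, ev PL (U i) = ∑ i ∈ range 7, 2 ^ 50 * pp (U i) := by
    have h1 : ∀ i ∈ range 7, ev PL (U i) =
        2 ^ 50 * pp (U i) + (ev GLs (U i) - ev GLs (U (i + 1))) := by
      intro i _
      rw [ev_PL, U_succ]; ring
    rw [sum_congr rfl h1, sum_add_distrib, sum_range_sub' (fun i => ev GLs (U i))]
    have : U 7 = U 0 := U_add_seven 0
    rw [this]; ring
  unfold bN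
  rw [h, ← mul_sum]
  ring

/-- the sub-action -/
theorem subaction : ∃ φ : ℝ → ℝ, Measurable φ ∧ (∃ M : ℝ, ∀ v, -1 ≤ v → v ≤ 1 → |φ v| ≤ M) ∧
    ∀ v : ℝ, -1 ≤ v → v ≤ 1 →
      pp v + φ v - φ (2 * v ^ 2 - 1) ≤ (∑ i ∈ range 7, pp (U i)) / 7 := by
  obtain ⟨s, h1, h2⟩ := corrected
  refine ⟨fun v => (ev GLs v + corr s v) / 2 ^ 50, ?_, ?_, ?_⟩
  · exact ((ev_continuous GLs).measurable.add (corr_measurable s)).div_const _
  · obtain ⟨M, hM⟩ := (isCompact_Icc (a := (-1 : ℝ)) (b := 1)).exists_bound_of_continuousOn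
      (ev_continuous GLs).continuousOn
    refine ⟨M + 1300, fun v hv1 hv2 => ?_⟩
    have h3 := hM v ⟨hv1, hv2⟩
    rw [Real.norm_eq_abs] at h3
    have h4 := corr_bd s h1 v
    rw [abs_div, abs_of_pos (by positivity : (0 : ℝ) < 2 ^ 50)]
    have h5 : |ev GLs v + corr s v| ≤ M + 1300 := by
      have := abs_add_le (ev GLs v) (corr s v)
      linarith
    have h6 : 0 ≤ |ev GLs v + corr s v| := abs_nonneg _
    calc |ev GLs v + corr s v| / 2 ^ 50 ≤ |ev GLs v + corr s v| / 1 := by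
          gcongr; norm_num
      _ = |ev GLs v + corr s v| := div_one _
      _ ≤ M + 1300 := h5
  · intro v hv1 hv2
    have h3 := h2 v hv1 hv2
    rw [bN_eq, ev_PL] at h3
    have h4 : (2 : ℝ) ^ 50 * (pp v + (ev GLs v + corr s v) / 2 ^ 50 -
        (ev GLs (2 * v ^ 2 - 1) + corr s (2 * v ^ 2 - 1)) / 2 ^ 50) ≤
        2 ^ 50 * ((∑ i ∈ range 7, pp (U i)) / 7) := by
      refine le_trans (le_of_eq ?_) h3
      field_simp
      ring
    exact le_of_mul_le_mul_left h4 (by positivity)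

end Pool.Agent.X153.FL
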